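import Pool.Agent.MG.WL.FIN.Stmts
import Pool.Agent.MG.W.WRG

/-!
# FAL: the Weierstrass equation from the orders of the poles, over a ring
-/

namespace Pool.Agent.MG.WL

open Pool.Agent.MG.W

namespace FAL

/-- Ring data: `R1` = functions away from the section, `R2` = functions near the section,
`z` = a coordinate, `ev` = the value at the section. -/
structure RD (A R1 R2 R12 : Type) [CommRing A] [CommRing R1] [CommRing R2] [CommRing R12] where
  /-- constants -/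
  c1 : A →+* R1
  /-- constants -/
  c2 : A →+* R2
  /-- restriction -/
  j1 : R1 →+* R12
  /-- restriction -/
  j2 : R2 →+* R12
  jc : ∀ a, j1 (c1 a) = j2 (c2 a)
  inj2 : Function.Injective j2
  /-- the coordinate -/
  z : R2
  hz : IsUnit (j2 z)
  /-- the value at the section -/
  ev : R2 →+* A
  evc : ∀ a, ev (c2 a) = a
  evk : ∀ r, ev r = 0 ↔ ∃ s, r = z * s

namespace RD

variable {A R1 R2 R12 : Type} [CommRing A] [CommRing R1] [CommRing R2] [CommRing R12]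
  (D : RD A R1 R2 R12)

/-- `r` has a pole of order at most `n`, with leading coefficient `c`. -/
def Ord (n : ℕ) (r : R1) (c : A) : Prop := ∃ s, D.j2 D.z ^ n * D.j1 r = D.j2 s ∧ D.ev s = c

variable {D}

lemma evz : D.ev D.z = 0 := (D.evk D.z).2 ⟨1, (mul_one _).symm⟩

lemma cancel {a b : R12} (h : D.j2 D.z * a = D.j2 D.z * b) : a = b := D.hz.mul_left_cancel h

lemma Ord.uniq {n : ℕ} {r : R1} {c c' : A} (h : D.Ord n r c) (h' : D.Ord n r c') : c = c' := by
  obtain ⟨s, h1, h2⟩ := h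
  obtain ⟨s', h1', h2'⟩ := h'
  rw [← h2, ← h2', D.inj2 (h1.symm.trans h1')]

lemma Ord.add {n : ℕ} {r r' : R1} {c c' : A} (h : D.Ord n r c) (h' : D.Ord n r' c') :
    D.Ord n (r + r') (c + c') := by
  obtain ⟨s, h1, h2⟩ := h
  obtain ⟨s', h1', h2'⟩ := h'
  exact ⟨s + s', by rw [map_add, map_add, mul_add, h1, h1'], by rw [map_add, h2, h2']⟩

lemma Ord.mul {n m : ℕ} {r r' : R1} {c c' : A} (h : D.Ord n r c) (h' : D.Ord m r' c') :
    D.Ord (n + m) (r * r') (c * c') := by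
  obtain ⟨s, h1, h2⟩ := h
  obtain ⟨s', h1', h2'⟩ := h'
  exact ⟨s * s', by rw [map_mul, map_mul, ← h1, ← h1', pow_add]; ring, by rw [map_mul, h2, h2']⟩

lemma ord_const (c : A) : D.Ord 0 (D.c1 c) c :=
  ⟨D.c2 c, by rw [pow_zero, one_mul, D.jc], D.evc c⟩

lemma ord_one : D.Ord 0 1 1 := by
  have := ord_const (D := D) 1
  rwa [map_one] at this

lemma Ord.smul {n : ℕ} {r : R1} {c : A} (h : D.Ord n r c) (d : A) :
    D.Ord n (D.c1 d * r) (d * c) := by
  have := (ord_const d).mul h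
  rwa [zero_add] at this

lemma Ord.neg {n : ℕ} {r : R1} {c : A} (h : D.Ord n r c) : D.Ord n (-r) (-c) := by
  have := h.smul (-1)
  rwa [map_neg, map_one, neg_one_mul, neg_one_mul] at this

lemma Ord.sub {n : ℕ} {r r' : R1} {c c' : A} (h : D.Ord n r c) (h' : D.Ord n r' c') :
    D.Ord n (r - r') (c - c') := by
  have := h.add h'.neg
  rwa [← sub_eq_add_neg, ← sub_eq_add_neg] at this

lemma Ord.pow {n : ℕ} {r : R1} {c : A} (h : D.Ord n r c) (m : ℕ) :
    D.Ord (n * m) (r ^ m) (c ^ m) := by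
  induction m with
  | zero => simpa using ord_one (D := D)
  | succ m ih =>
    rw [pow_succ, pow_succ, Nat.mul_succ]
    exact ih.mul h

lemma Ord.succ {n : ℕ} {r : R1} {c : A} (h : D.Ord n r c) : D.Ord (n + 1) r 0 := by
  obtain ⟨s, h1, h2⟩ := h
  exact ⟨D.z * s, by rw [pow_succ, map_mul, ← h1]; ring, by rw [map_mul, evz, zero_mul]⟩

lemma Ord.mono {n m : ℕ} {r : R1} {c : A} (h : D.Ord n r c) (hnm : n < m) : D.Ord m r 0 := by
  induction m, hnm using Nat.le_induction with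
  | base => exact h.succ
  | succ m _ ih => exact ih.succ

lemma Ord.pred {n : ℕ} {r : R1} (h : D.Ord (n + 1) r 0) : ∃ c, D.Ord n r c := by
  obtain ⟨s, h1, h2⟩ := h
  obtain ⟨s', rfl⟩ := (D.evk s).1 h2
  refine ⟨D.ev s', s', ?_, rfl⟩
  apply cancel (D := D)
  rw [← map_mul, ← h1, pow_succ]
  ring

lemma ord_zero (n : ℕ) : D.Ord n 0 0 := ⟨0, by simp, map_zero _⟩

lemma Ord.cast {n m : ℕ} {r : R1} {c : A} (h : D.Ord n r c) (hn : n = m) : D.Ord m r c := hn ▸ h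

lemma Ord.red {n : ℕ} {r m : R1} {c : A} (h : D.Ord (n + 1) r c) (hm : D.Ord (n + 1) m 1) :
    ∃ c', D.Ord n (r - D.c1 c * m) c' := by
  have := h.sub (hm.smul c)
  rw [mul_one, sub_self] at this
  exact this.pred

lemma ord_sum {n : ℕ} {ι : Type} (s : Finset ι) (f : ι → R1) (h : ∀ i ∈ s, D.Ord n (f i) 0) :
    D.Ord n (∑ i ∈ s, f i) 0 := by
  classical
  induction s using Finset.induction_on with
  | empty => simpa using ord_zero (D := D) n
  | insert a s ha ih =>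
    rw [Finset.sum_insert ha]
    have := (h a (Finset.mem_insert_self _ _)).add (ih fun i hi => h i (Finset.mem_insert_of_mem hi))
    rwa [add_zero] at this

open Polynomial

lemma ord_poly {x : R1} (hx : D.Ord 2 x 1) (p : A[X]) :
    D.Ord (2 * p.natDegree) (p.eval₂ D.c1 x) p.leadingCoeff := by
  rw [Polynomial.eval₂_eq_sum_range, Finset.sum_range_succ]
  have h1 : ∀ i, D.Ord (2 * i) (D.c1 (p.coeff i) * x ^ i) (p.coeff i) := by
    intro i
    have := (hx.pow i).smul (p.coeff i)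
    rwa [one_pow, mul_one] at this
  have := (ord_sum (Finset.range p.natDegree) (fun i => D.c1 (p.coeff i) * x ^ i)
    (fun i hi => (h1 i).mono (by rw [Finset.mem_range] at hi; omega))).add (h1 p.natDegree)
  rwa [zero_add] at this

/-- A function `p(x) + q(x) y` with at most a simple pole is constant. -/
theorem low {x y : R1} (hx : D.Ord 2 x 1) (hy : D.Ord 3 y 1) (p q : A[X]) {c : A}
    (h : D.Ord 1 (p.eval₂ D.c1 x + q.eval₂ D.c1 x * y) c) : q = 0 ∧ p = C (p.coeff 0) := by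
  have h1 := ord_poly hx p
  have h2 := (ord_poly hx q).mul hy
  rw [mul_one] at h2
  have hq : q = 0 := by
    by_contra hq
    have hlq : q.leadingCoeff ≠ 0 := Polynomial.leadingCoeff_ne_zero.2 hq
    rcases lt_or_ge (2 * p.natDegree) (2 * q.natDegree + 3) with hlt | hge
    · have h3 := (h1.mono hlt).add h2
      rw [zero_add] at h3
      exact hlq (h3.uniq (h.mono (by omega)))
    · have h3 := h1.add (h2.mono (show 2 * q.natDegree + 3 < 2 * p.natDegree by omega))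
      rw [add_zero] at h3
      have h4 : p.leadingCoeff = 0 := h3.uniq (h.mono (by omega))
      rw [Polynomial.leadingCoeff_eq_zero] at h4
      rw [h4, Polynomial.natDegree_zero] at hge
      omega
  refine ⟨hq, ?_⟩
  subst hq
  rw [eval₂_zero, zero_mul, add_zero] at h
  apply Polynomial.eq_C_of_natDegree_eq_zero
  by_contra hp
  have h4 : p.leadingCoeff = 0 := h1.uniq (h.mono (by omega))
  rw [Polynomial.leadingCoeff_eq_zero] at h4
  rw [h4, Polynomial.natDegree_zero] at hp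
  exact hp rfl

theorem indep {x y : R1} (hx : D.Ord 2 x 1) (hy : D.Ord 3 y 1) (p q : A[X])
    (h : p.eval₂ D.c1 x + q.eval₂ D.c1 x * y = 0) : p = 0 ∧ q = 0 := by
  obtain ⟨hq, hp⟩ := low hx hy p q (c := 0) (by rw [h]; exact ord_zero 1)
  refine ⟨?_, hq⟩
  subst hq
  rw [eval₂_zero, zero_mul, add_zero, hp, eval₂_C] at h
  have h0 := ord_const (D := D) (p.coeff 0)
  rw [h] at h0
  rw [hp, h0.uniq (ord_zero 0), C_0]

theorem exists_eq0 {x y : R1} (hx : D.Ord 2 x 1) (hy : D.Ord 3 y 1)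
    (hs : ∀ r : R1, ∃ p q : A[X], r = p.eval₂ D.c1 x + q.eval₂ D.c1 x * y) :
    ∃ a1 a2 a3 a4 a6 : A, y ^ 2 = x ^ 3 + D.c1 a1 * (x * y) + D.c1 a2 * x ^ 2 + D.c1 a3 * y +
      D.c1 a4 * x + D.c1 a6 := by
  have h6 : D.Ord (5 + 1) (y ^ 2 - x ^ 3) 0 := by
    have := ((hy.pow 2).cast (show 3 * 2 = 5 + 1 by norm_num)).sub
      ((hx.pow 3).cast (show 2 * 3 = 5 + 1 by norm_num))
    simpa using this
  obtain ⟨c5, h5⟩ := h6.pred
  have m5 : D.Ord (4 + 1) (x * y) 1 := by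
    have := (hx.mul hy).cast (show 2 + 3 = 4 + 1 by norm_num)
    rwa [mul_one] at this
  obtain ⟨c4, h4⟩ := h5.red m5
  have m4 : D.Ord (3 + 1) (x ^ 2) 1 := by
    have := (hx.pow 2).cast (show 2 * 2 = 3 + 1 by norm_num)
    rwa [one_pow] at this
  obtain ⟨c3, h3⟩ := h4.red m4
  obtain ⟨c2, h2⟩ := h3.red hy
  obtain ⟨c1, h1⟩ := h2.red hx
  obtain ⟨p, q, hpq⟩ := hs (y ^ 2 - x ^ 3 - D.c1 c5 * (x * y) - D.c1 c4 * x ^ 2 - D.c1 c3 * y -
    D.c1 c2 * x)
  rw [hpq] at h1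
  obtain ⟨hq, hp⟩ := low hx hy p q h1
  rw [hq, eval₂_zero, zero_mul, add_zero, hp, eval₂_C] at hpq
  refine ⟨c5, c4, c3, c2, p.coeff 0, ?_⟩
  linear_combination hpq

/-- Completing the square and the cube. -/
theorem exists_W (h6 : IsUnit (6 : A)) {x y : R1} (hx : D.Ord 2 x 1) (hy : D.Ord 3 y 1)
    (hs : ∀ r : R1, ∃ p q : A[X], r = p.eval₂ D.c1 x + q.eval₂ D.c1 x * y) :
    ∃ a b β δ ε : A, (y + D.c1 δ * x + D.c1 ε) ^ 2 =
      (x + D.c1 β) ^ 3 + D.c1 a * (x + D.c1 β) + D.c1 b := by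
  obtain ⟨a1, a2, a3, a4, a6, h⟩ := exists_eq0 hx hy hs
  obtain ⟨w, hw⟩ := h6.exists_left_inv
  obtain ⟨i2, two⟩ : ∃ i2 : A, i2 * 2 = 1 := ⟨w * 3, by linear_combination hw⟩
  obtain ⟨i3, three⟩ : ∃ i3 : A, i3 * 3 = 1 := ⟨w * 2, by linear_combination hw⟩
  have e2 : D.c1 i2 * 2 = 1 := by
    have : (2 : R1) = D.c1 2 := (map_ofNat D.c1 2).symm
    rw [this, ← map_mul, two, map_one]
  have e3 : D.c1 i3 * 3 = 1 := by
    have : (3 : R1) = D.c1 3 := (map_ofNat D.c1 3).symm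
    rw [this, ← map_mul, three, map_one]
  let b2 : A := a2 + a1 ^ 2 * i2 ^ 2
  let b4 : A := a4 + a1 * a3 * i2
  let b6 : A := a6 + a3 ^ 2 * i2 ^ 2
  refine ⟨b4 - b2 ^ 2 * i3, b6 - b2 * b4 * i3 + 2 * b2 ^ 3 * i3 ^ 3,
    b2 * i3, -(a1 * i2), -(a3 * i2), ?_⟩
  simp only [b2, b4, b6, map_sub, map_add, map_mul, map_pow, map_neg, map_ofNat]
  generalize D.c1 a1 = A1 at *
  generalize D.c1 a2 = A2 at *
  generalize D.c1 a3 = A3 at *
  generalize D.c1 a4 = A4 at *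
  generalize D.c1 a6 = A6 at *
  generalize D.c1 i2 = h2 at *
  generalize D.c1 i3 = h3 at *
  have k1 : A1 * x * y * (h2 * 2) = A1 * x * y := by rw [e2, mul_one]
  have k2 : A3 * y * (h2 * 2) = A3 * y := by rw [e2, mul_one]
  set B2 := A2 + A1 ^ 2 * h2 ^ 2 with hB2
  set B4 := A4 + A1 * A3 * h2 with hB4
  set B6 := A6 + A3 ^ 2 * h2 ^ 2 with hB6
  have s1 : (y + -(A1 * h2) * x + -(A3 * h2)) ^ 2 = x ^ 3 + B2 * x ^ 2 + B4 * x + B6 := by
    rw [hB2, hB4, hB6]
    linear_combination h - k1 - k2 + (A1 * A3 * h2 * x) * e2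
  rw [s1]
  linear_combination (-B2 * x ^ 2 - B2 ^ 2 * h3 * x - B2 ^ 3 * h3 ^ 2) * e3

lemma ord_x {x : R1} (hx : D.Ord 2 x 1) (β : A) : D.Ord 2 (x + D.c1 β) 1 := by
  have := hx.add ((ord_const (D := D) β).mono (show 0 < 2 by norm_num))
  rwa [add_zero] at this

lemma ord_y {x y : R1} (hx : D.Ord 2 x 1) (hy : D.Ord 3 y 1) (δ ε : A) :
    D.Ord 3 (y + D.c1 δ * x + D.c1 ε) 1 := by
  have h1 := (hx.smul δ).mono (show 2 < 3 by norm_num)
  have h2 := (ord_const (D := D) ε).mono (show 0 < 3 by norm_num)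
  have := (hy.add h1).add h2
  rwa [add_zero, add_zero] at this

/-- The functions on the affine curve. -/
theorem bij {x y : R1} (hx : D.Ord 2 x 1) (hy : D.Ord 3 y 1)
    (hs : ∀ r : R1, ∃ p q : A[X], r = p.eval₂ D.c1 x + q.eval₂ D.c1 x * y)
    (a b β δ ε : A) (e : (y + D.c1 δ * x + D.c1 ε) ^ 2 =
      (x + D.c1 β) ^ 3 + D.c1 a * (x + D.c1 β) + D.c1 b) :
    Function.Bijective
      (lift1 (a := a) (b := b) D.c1 (x + D.c1 β) (y + D.c1 δ * x + D.c1 ε) e) := by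
  have hb : ∀ c, lift1 (a := a) (b := b) D.c1 (x + D.c1 β) (y + D.c1 δ * x + D.c1 ε) e
      (algebraMap A _ c) = D.c1 c := fun c => lift1_b D.c1 _ _ e c
  have hx1 : lift1 (a := a) (b := b) D.c1 (x + D.c1 β) (y + D.c1 δ * x + D.c1 ε) e
      (x1 A a b) = x + D.c1 β := lift1_x D.c1 _ _ e
  have hy1 : lift1 (a := a) (b := b) D.c1 (x + D.c1 β) (y + D.c1 δ * x + D.c1 ε) e
      (y1 A a b) = y + D.c1 δ * x + D.c1 ε := lift1_y D.c1 _ _ e
  generalize lift1 (a := a) (b := b) D.c1 (x + D.c1 β) (y + D.c1 δ * x + D.c1 ε) e = φ at *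
  have hev : ∀ (v : A1 A a b) (p : A[X]), φ (aeval v p) = p.eval₂ D.c1 (φ v) := by
    intro v p
    rw [Polynomial.aeval_def, Polynomial.hom_eval₂]
    congr 1
    exact RingHom.ext fun c => hb c
  constructor
  · rw [injective_iff_map_eq_zero]
    intro v hv0
    obtain ⟨⟨p, q⟩, rfl, -⟩ := (t_WRG A a b).1 v
    rw [map_add, map_mul, hev, hev, hx1, hy1] at hv0
    obtain ⟨rfl, rfl⟩ := indep (ord_x hx β) (ord_y hx hy δ ε) p q hv0
    simp
  · intro r
    obtain ⟨p, q, hpq⟩ := hs r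
    have hX : φ (x1 A a b - algebraMap A _ β) = x := by
      rw [map_sub, hb, hx1]
      ring
    have hY : φ (y1 A a b - algebraMap A _ δ * (x1 A a b - algebraMap A _ β) -
        algebraMap A _ ε) = y := by
      rw [map_sub, map_sub, map_mul, hX, hb, hb, hy1]
      ring
    exact ⟨aeval (x1 A a b - algebraMap A _ β) p + aeval (x1 A a b - algebraMap A _ β) q *
      (y1 A a b - algebraMap A _ δ * (x1 A a b - algebraMap A _ β) - algebraMap A _ ε),
      by rw [map_add, map_mul, hev, hev, hX, hY, hpq]⟩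

end RD

end FAL

/-- FAL: the Weierstrass equation from the orders of the poles. -/
theorem t_FAL : Stmt_FAL := by
  intro A R1 R2 R12 _ _ _ _ c1 c2 j1 j2 jc inj2 z hz ev evc evk h6 x y hx hy hs
  let D : FAL.RD A R1 R2 R12 := ⟨c1, c2, j1, j2, jc, inj2, z, hz, ev, evc, evk⟩
  have one : ∀ r, D.ev (1 + z * r) = 1 := by
    intro r
    rw [map_add, map_one, map_mul, (evk z).2 ⟨1, (mul_one _).symm⟩, zero_mul, add_zero]
  have ox : D.Ord 2 x 1 := by
    obtain ⟨r, hr⟩ := hx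
    exact ⟨1 + z * r, hr, one r⟩
  have oy : D.Ord 3 y 1 := by
    obtain ⟨r, hr⟩ := hy
    exact ⟨1 + z * r, hr, one r⟩
  obtain ⟨a, b, β, δ, ε, e⟩ := FAL.RD.exists_W h6 ox oy hs
  exact ⟨a, b, β, δ, ε, e, FAL.RD.bij ox oy hs a b β δ ε e⟩

end Pool.Agent.MG.WL
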