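import Pool.Agent.MG.WL.FIN.Stmts
import Pool.Agent.MG.GLUM
import Pool.Agent.MG.NOD

/-!
# FCH: the chart at infinity
-/

open CategoryTheory CategoryTheory.Limits AlgebraicGeometry TensorProduct TopologicalSpace

namespace Pool.Agent.MG.WL

open Pool.Agent.MG.W Pool.Agent.MG.One Pool.Agent.MG.GLU

namespace FCH

variable {A : Type} [CommRing A] {C : Fam 1 A}

theorem gm_id_rs {X : Scheme.{0}} (i : Sp A ⟶ X) {W W' : X.Opens}
    (hW : W' ≤ W) (h : ⊤ ≤ i ⁻¹ᵁ W) (h' : ⊤ ≤ i ⁻¹ᵁ W') (v : Γ(X, W)) :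
    gm i W' h' (rs X hW v) = gm i W h v :=
  gm_rs i (RingHom.id A) i (spMap_id_comp _).symm hW h h' v

theorem gm_sec {W : C.X.Opens} (h : ⊤ ≤ (C.σ 0) ⁻¹ᵁ W) (c : A) :
    gm (C.σ 0) W h (coef C.π W c) = c :=
  gm_coef (C.σ 0) C.π (RingHom.id A) (by rw [C.sec]; exact (Spec.map_id _).symm) W h c

theorem gm_t (L : LC C) : gm (C.σ 0) L.V L.le L.t = 0 :=
  (L.ker L.t).2 ⟨1, (mul_one _).symm⟩

theorem le_basic {X : Scheme.{0}} (i : Sp A ⟶ X) {W : X.Opens} (h : ⊤ ≤ i ⁻¹ᵁ W) (v : Γ(X, W))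
    (hv : IsUnit (gm i W h v)) : ⊤ ≤ i ⁻¹ᵁ (X.basicOpen v) := by
  have h1 : IsUnit ((i.appLE W ⊤ h).hom v) := by
    have h2 : (Scheme.ΓSpecIso (CommRingCat.of A)).inv.hom (gm i W h v) =
        (i.appLE W ⊤ h).hom v := by
      change ((Scheme.ΓSpecIso (CommRingCat.of A)).hom ≫
        (Scheme.ΓSpecIso (CommRingCat.of A)).inv).hom ((i.appLE W ⊤ h).hom v) = _
      rw [Iso.hom_inv_id]
      rfl
    rw [← h2]
    exact hv.map _
  have h2 := Scheme.basicOpen_appLE i ⊤ W h v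
  have h3 := (Sp A).basicOpen_of_isUnit h1
  rw [h2] at h3
  rw [← h3]
  exact inf_le_right

/-- The data near the section. -/
structure CD (L : LC C) (a b : A) where
  x : Γ(C.X, L.U)
  y : Γ(C.X, L.U)
  e : y ^ 2 = x ^ 3 + coef C.π L.U a * x + coef C.π L.U b
  bij : Function.Bijective (lift1 (coef C.π L.U) x y e)
  V : C.X.Opens
  aV : IsAffineOpen V
  leV : V ≤ L.V
  sV : ⊤ ≤ (C.σ 0) ⁻¹ᵁ V
  zz : Γ(C.X, V)
  tt : Γ(C.X, V)
  rel : tt = 1 + coef C.π V a * zz ^ 4 * tt ^ 2 + coef C.π V b * zz ^ 6 * tt ^ 3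
  ez : gm (C.σ 0) V sV zz = 0
  et : gm (C.σ 0) V sV tt = 1
  r1 : rs C.X (inf_le_right : L.U ⊓ V ≤ V) zz ^ 2 * rs C.X inf_le_right tt *
    rs C.X inf_le_left x = 1
  r2 : rs C.X (inf_le_right : L.U ⊓ V ≤ V) zz ^ 3 * rs C.X inf_le_right tt *
    rs C.X inf_le_left y = 1

theorem rs_rs' {X : Scheme.{0}} {U V W : X.Opens} (h : U ≤ V) (h' : V ≤ W) (v : Γ(X, W)) :
    rs X h (rs X h' v) = rs X (h.trans h') v := by
  change (X.presheaf.map (homOfLE h').op ≫ X.presheaf.map (homOfLE h).op) v = _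
  rw [← Functor.map_comp, ← op_comp]
  rfl

theorem alg1 {R : Type} [CommRing R] {T S S' U U' X Y a b : R} (k1 : T ^ 2 * X = S)
    (k2 : T ^ 3 * Y = S') (k3 : S * U = 1) (k4 : S' * U' = 1) (k5 : Y ^ 2 = X ^ 3 + a * X + b) :
    (T * S * U') ^ 2 * (S' ^ 2 * U ^ 3) * X = 1 ∧ (T * S * U') ^ 3 * (S' ^ 2 * U ^ 3) * Y = 1 ∧
      S' ^ 2 * U ^ 3 = 1 + a * (T * S * U') ^ 4 * (S' ^ 2 * U ^ 3) ^ 2 +
        b * (T * S * U') ^ 6 * (S' ^ 2 * U ^ 3) ^ 3 := by
  have r1 : (T * S * U') ^ 2 * (S' ^ 2 * U ^ 3) * X = 1 := by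
    have e1 : (T * S * U') ^ 2 * (S' ^ 2 * U ^ 3) * X = (T ^ 2 * X) * S ^ 2 * U ^ 3 *
      (S' * U') ^ 2 := by ring
    rw [e1, k1, k4]
    have e2 : S * S ^ 2 * U ^ 3 * 1 ^ 2 = (S * U) ^ 3 := by ring
    rw [e2, k3, one_pow]
  have r2 : (T * S * U') ^ 3 * (S' ^ 2 * U ^ 3) * Y = 1 := by
    have e1 : (T * S * U') ^ 3 * (S' ^ 2 * U ^ 3) * Y = (T ^ 3 * Y) * U' ^ 3 * S' ^ 2 *
      (S * U) ^ 3 := by ring
    rw [e1, k2, k3]
    have e2 : S' * U' ^ 3 * S' ^ 2 * 1 ^ 3 = (S' * U') ^ 3 := by ring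
    rw [e2, k4, one_pow]
  refine ⟨r1, r2, ?_⟩
  generalize T * S * U' = Z at *
  generalize S' ^ 2 * U ^ 3 = W at *
  have e1 : W = Y ^ 2 * (Z ^ 6 * W ^ 3) := by
    have : Y ^ 2 * (Z ^ 6 * W ^ 3) = (Z ^ 3 * W * Y) ^ 2 * W := by ring
    rw [this, r2, one_pow, one_mul]
  have e2 : X ^ 3 * (Z ^ 6 * W ^ 3) = 1 := by
    have : X ^ 3 * (Z ^ 6 * W ^ 3) = (Z ^ 2 * W * X) ^ 3 := by ring
    rw [this, r1, one_pow]
  have e3 : a * X * (Z ^ 6 * W ^ 3) = a * Z ^ 4 * W ^ 2 := by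
    have : a * X * (Z ^ 6 * W ^ 3) = (Z ^ 2 * W * X) * (a * Z ^ 4 * W ^ 2) := by ring
    rw [this, r1, one_mul]
  have e4 : W = X ^ 3 * (Z ^ 6 * W ^ 3) + a * X * (Z ^ 6 * W ^ 3) + b * (Z ^ 6 * W ^ 3) := by
    conv_lhs => rw [e1, k5]
    ring
  rw [e2, e3] at e4
  linear_combination e4

theorem exists_CD (hFLK : Stmt_FLK) (L : LC C) {x y : Γ(C.X, L.U)} (hx : L.Pole 2 1 x)
    (hy : L.Pole 3 1 y) {a b : A} (e : y ^ 2 = x ^ 3 + coef C.π L.U a * x + coef C.π L.U b)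
    (bij : Function.Bijective (lift1 (coef C.π L.U) x y e)) : Nonempty (CD L a b) := by
  obtain ⟨r, hr⟩ := hx
  obtain ⟨r', hr'⟩ := hy
  rw [map_one] at hr hr'
  obtain ⟨s, hs⟩ : ∃ s, s = 1 + L.t * r := ⟨_, rfl⟩
  obtain ⟨s', hs'⟩ : ∃ s', s' = 1 + L.t * r' := ⟨_, rfl⟩
  rw [← hs] at hr
  rw [← hs'] at hr'
  have gs : gm (C.σ 0) L.V L.le s = 1 := by
    rw [hs, map_add, map_one, map_mul, gm_t, zero_mul, add_zero]
  have gs' : gm (C.σ 0) L.V L.le s' = 1 := by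
    rw [hs', map_add, map_one, map_mul, gm_t, zero_mul, add_zero]
  obtain ⟨V, hV⟩ : ∃ V, V = C.X.basicOpen (s * s') := ⟨_, rfl⟩
  have leV : V ≤ L.V := hV ▸ C.X.basicOpen_le _
  have aV : IsAffineOpen V := hV ▸ L.aff.basicOpen _
  have sV : ⊤ ≤ (C.σ 0) ⁻¹ᵁ V := by
    rw [hV]
    exact le_basic _ L.le _ (by rw [map_mul, gs, gs', mul_one]; exact isUnit_one)
  have hu : IsUnit (rs C.X leV (s * s')) := by
    subst hV
    exact C.X.toRingedSpace.isUnit_res_basicOpen (s * s')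
  rw [map_mul] at hu
  obtain ⟨u, hu1⟩ := (isUnit_of_mul_isUnit_left hu).exists_right_inv
  obtain ⟨u', hu1'⟩ := (isUnit_of_mul_isUnit_right hu).exists_right_inv
  have gu : gm (C.σ 0) V sV u = 1 := by
    have := congrArg (gm (C.σ 0) V sV) hu1
    rwa [map_mul, map_one, gm_id_rs _ leV L.le, gs, one_mul] at this
  have gu' : gm (C.σ 0) V sV u' = 1 := by
    have := congrArg (gm (C.σ 0) V sV) hu1'
    rwa [map_mul, map_one, gm_id_rs _ leV L.le, gs', one_mul] at this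
  obtain ⟨zz, hzz⟩ : ∃ zz, zz = rs C.X leV L.t * rs C.X leV s * u' := ⟨_, rfl⟩
  obtain ⟨tt, htt⟩ : ∃ tt, tt = rs C.X leV s' ^ 2 * u ^ 3 := ⟨_, rfl⟩
  have ez : gm (C.σ 0) V sV zz = 0 := by
    rw [hzz, map_mul, map_mul, gm_id_rs _ leV L.le, gm_t, zero_mul, zero_mul]
  have et : gm (C.σ 0) V sV tt = 1 := by
    rw [htt, map_mul, map_pow, map_pow, gm_id_rs _ leV L.le, gs', gu, one_pow, one_pow, one_mul]
  -- restriction to `U ∩ V`
  have hle : L.U ⊓ V ≤ L.U ⊓ L.V := inf_le_inf_left _ leV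
  have k1 := congrArg (rs C.X hle) hr
  have k2 := congrArg (rs C.X hle) hr'
  have k3 := congrArg (rs C.X (inf_le_right : L.U ⊓ V ≤ V)) hu1
  have k4 := congrArg (rs C.X (inf_le_right : L.U ⊓ V ≤ V)) hu1'
  have k5 := congrArg (rs C.X (inf_le_left : L.U ⊓ V ≤ L.U)) e
  rw [map_mul, map_pow, rs_rs', rs_rs', rs_rs'] at k1 k2
  rw [map_mul, rs_rs', map_one] at k3 k4
  rw [map_add, map_add, map_mul, map_pow, map_pow, coef_rs, coef_rs] at k5
  obtain ⟨r1, r2, r3⟩ := alg1 k1 k2 k3 k4 k5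
  refine ⟨⟨x, y, e, bij, V, aV, leV, sV, zz, tt, ?_, ez, et, ?_, ?_⟩⟩
  · rw [← sub_eq_zero]
    refine (hFLK L V leV).2.1 _ ?_
    rw [hzz, htt]
    simp only [map_add, map_sub, map_mul, map_pow, map_one, coef_rs, rs_rs']
    rw [sub_eq_zero]
    exact r3
  · rw [hzz, htt]
    simp only [map_mul, map_pow, rs_rs']
    exact r1
  · rw [hzz, htt]
    simp only [map_mul, map_pow, rs_rs']
    exact r2

section maps

variable {L : LC C} {a b : A} (D : CD L a b) (hU : IsAffineOpen L.U)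
  (hUV : IsAffineOpen (L.U ⊓ D.V))

/-- Functions away from the section. -/
noncomputable def E1 : Γ(C.X, L.U) ≃+* A1 A a b := (RingEquiv.ofBijective _ D.bij).symm

lemma E1_lift (v : A1 A a b) : E1 D (lift1 (coef C.π L.U) D.x D.y D.e v) = v :=
  (RingEquiv.ofBijective _ D.bij).symm_apply_apply v

lemma lift_E1 (r : Γ(C.X, L.U)) : lift1 (coef C.π L.U) D.x D.y D.e (E1 D r) = r :=
  (RingEquiv.ofBijective _ D.bij).apply_symm_apply r

/-- The first chart. -/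
noncomputable abbrev i1 : Sp (A1 A a b) ⟶ C.X := ww hU (E1 D)

/-- The chart near the section. -/
noncomputable abbrev jV : Sp Γ(C.X, D.V) ⟶ C.X := D.aV.fromSpec

/-- The intersection. -/
noncomputable abbrev jW : Sp Γ(C.X, L.U ⊓ D.V) ⟶ C.X := hUV.fromSpec

/-- Restriction from the first chart. -/
noncomputable def ρ1 : A1 A a b →+* Γ(C.X, L.U ⊓ D.V) :=
  (rs C.X inf_le_left).comp (lift1 (coef C.π L.U) D.x D.y D.e)

/-- Restriction from the chart near the section. -/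
noncomputable def ρ2 : Γ(C.X, D.V) →+* Γ(C.X, L.U ⊓ D.V) := rs C.X inf_le_right

/-- The functions of the chart at infinity. -/
noncomputable def e2 : A2 A a b →+* Γ(C.X, D.V) := lift2 (coef C.π D.V) D.zz D.tt D.rel

theorem jW_gm (v : Γ(C.X, L.U ⊓ D.V)) (h : ⊤ ≤ (jW D hUV) ⁻¹ᵁ (L.U ⊓ D.V)) :
    gm (A := Γ(C.X, L.U ⊓ D.V)) (jW D hUV) (L.U ⊓ D.V) h v = v := gm_fromSpec _ _ _ _

theorem jW_le : ⊤ ≤ (jW D hUV) ⁻¹ᵁ (L.U ⊓ D.V) := hUV.fromSpec_preimage_self.ge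

theorem jW_1 : jW D hUV = spMap (ρ1 D) ≫ i1 D hU := by
  refine ww_eq hU (E1 D) _ ((jW_le D hUV).trans fun _ hx => hx.1) _ ?_
  intro v
  have := gm_rs (jW D hUV) (RingHom.id Γ(C.X, L.U ⊓ D.V)) (jW D hUV) (spMap_id_comp _).symm
    (W := L.U) (W' := L.U ⊓ D.V) inf_le_left
    ((jW_le D hUV).trans fun _ hx => hx.1) (jW_le D hUV) v
  rw [jW_gm] at this
  refine Eq.trans this.symm ?_
  change _ = rs C.X inf_le_left (lift1 (coef C.π L.U) D.x D.y D.e (E1 D v))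
  rw [lift_E1]

theorem jW_2 : jW D hUV = spMap (ρ2 D) ≫ jV D := by
  have h1 := eq_fromSpec (A := Γ(C.X, L.U ⊓ D.V)) (jW D hUV) D.V D.aV
    ((jW_le D hUV).trans fun _ hx => hx.2)
  have h2 : gm (A := Γ(C.X, L.U ⊓ D.V)) (jW D hUV) D.V
      ((jW_le D hUV).trans fun _ hx => hx.2) = ρ2 D := by
    refine RingHom.ext fun v => ?_
    have := gm_rs (jW D hUV) (RingHom.id Γ(C.X, L.U ⊓ D.V)) (jW D hUV) (spMap_id_comp _).symm
      (W := D.V) (W' := L.U ⊓ D.V) inf_le_right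
      ((jW_le D hUV).trans fun _ hx => hx.2) (jW_le D hUV) v
    rw [jW_gm] at this
    exact this.symm
  rw [h2] at h1
  exact h1

theorem cover (z : C.X) : z ∈ L.U ∨ z ∈ D.V := by
  by_cases h : z ∈ L.U
  · exact Or.inl h
  · rw [L.mU, not_not] at h
    obtain ⟨q, rfl⟩ := h
    exact Or.inr (D.sV (show q ∈ ⊤ by trivial))

include hUV in
/-- The curve is the push out of its two charts. -/
theorem push : ∃ (_ : IsOpenImmersion (spMap (ρ1 D))) (_ : IsOpenImmersion (spMap (ρ2 D))),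
    IsPushout (spMap (ρ1 D)) (spMap (ρ2 D)) (i1 D hU) (jV D) := by
  have o1 : IsOpenImmersion (spMap (ρ1 D) ≫ i1 D hU) := by
    rw [← jW_1 D hU hUV]
    infer_instance
  have o2 : IsOpenImmersion (spMap (ρ2 D) ≫ jV D) := by
    rw [← jW_2 D hUV]
    infer_instance
  have h1 : IsOpenImmersion (spMap (ρ1 D)) := IsOpenImmersion.of_comp _ (i1 D hU)
  have h2 : IsOpenImmersion (spMap (ρ2 D)) := IsOpenImmersion.of_comp _ (jV D)
  refine ⟨h1, h2, glue_push ?_ ?_ ?_⟩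
  · rw [← jW_1 D hU hUV, ← jW_2 D hUV]
  · intro z
    rcases cover D z with h | h
    · left
      have h' : z ∈ (i1 D hU).opensRange := by rw [ww_range]; exact h
      exact h'
    · right
      rw [D.aV.range_fromSpec]
      exact h
  · intro p p' hp
    have m1 : i1 D hU p ∈ L.U := ww_le hU (E1 D) (show p ∈ ⊤ by trivial)
    have m2 : jV D p' ∈ D.V := by
      have : jV D p' ∈ Set.range D.aV.fromSpec := ⟨_, rfl⟩
      rw [D.aV.range_fromSpec] at this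
      exact this
    have m3 : i1 D hU p ∈ Set.range hUV.fromSpec := by
      rw [hUV.range_fromSpec]
      exact ⟨m1, hp ▸ m2⟩
    obtain ⟨w, hw⟩ := m3
    refine ⟨w, ?_, ?_⟩
    · apply (i1 D hU).isOpenEmbedding.injective
      rw [← Scheme.Hom.comp_apply, ← jW_1 D hU hUV]
      exact hw
    · apply (jV D).isOpenEmbedding.injective
      rw [← Scheme.Hom.comp_apply, ← jW_2 D hUV, ← hp]
      exact hw

theorem zz_unit : IsUnit (ρ2 D D.zz) := by
  have h := D.r1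
  exact IsUnit.of_mul_eq_one (ρ2 D D.zz * rs C.X inf_le_right D.tt * rs C.X inf_le_left D.x) (by
    rw [← h]
    change rs C.X inf_le_right D.zz * (rs C.X inf_le_right D.zz * _ * _) = _
    ring)

/-- The comparison with the ring of the intersection. -/
noncomputable def ψ : A12 A a b →+* Γ(C.X, L.U ⊓ D.V) :=
  IsLocalization.Away.lift (z2 A a b) (g := (ρ2 D).comp (e2 D)) (by
    rw [RingHom.comp_apply, e2, lift2_z]
    exact zz_unit D)

theorem ψ_2 (v : A2 A a b) : ψ D (g2 A a b v) = ρ2 D (e2 D v) :=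
  IsLocalization.Away.lift_eq _ _ _

theorem ψ_zu : ψ D (zu A a b).val = rs C.X inf_le_right D.zz := by
  rw [zu_val, ψ_2, e2, lift2_z]
  rfl

theorem ψ_tu : ψ D (tu A a b).val = rs C.X inf_le_right D.tt := by
  rw [tu_val, ψ_2, e2, lift2_t]
  rfl

theorem ψ_1 (v : A1 A a b) : ψ D (g1 A a b v) = ρ1 D v := by
  have h : (ψ D).comp (g1 A a b) = ρ1 D := by
    have key : ∀ (w : (A12 A a b)ˣ) (z X : Γ(C.X, L.U ⊓ D.V)), ψ D w.val = z → z * X = 1 →
        ψ D (w⁻¹ : (A12 A a b)ˣ).val = X := by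
      intro w z X h1 h2
      have h3 : ψ D (w⁻¹ : (A12 A a b)ˣ).val * z = 1 := by
        rw [← h1, ← map_mul, Units.inv_mul, map_one]
      calc ψ D (w⁻¹ : (A12 A a b)ˣ).val = ψ D (w⁻¹ : (A12 A a b)ˣ).val * (z * X) := by
            rw [h2, mul_one]
        _ = (ψ D (w⁻¹ : (A12 A a b)ˣ).val * z) * X := by ring
        _ = X := by rw [h3, one_mul]
    refine hom1_ext ?_ ?_ ?_
    · intro c
      rw [RingHom.comp_apply, g1_b, ρ1, RingHom.comp_apply, lift1_b, coef_rs]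
      have h1 : algebraMap A (A12 A a b) c = g2 A a b (algebraMap A _ c) := rfl
      rw [h1, ψ_2, e2, lift2_b, ρ2, coef_rs]
    · rw [RingHom.comp_apply, g1_x, ρ1, RingHom.comp_apply, lift1_x]
      have h1 : (zu A a b)⁻¹ ^ 2 * (tu A a b)⁻¹ = ((zu A a b) ^ 2 * tu A a b)⁻¹ := by
        rw [mul_inv, inv_pow]
      rw [h1]
      refine key _ _ _ ?_ D.r1
      push_cast
      rw [map_mul, map_pow, ψ_zu, ψ_tu]
    · rw [RingHom.comp_apply, g1_y, ρ1, RingHom.comp_apply, lift1_y]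
      have h1 : (zu A a b)⁻¹ ^ 3 * (tu A a b)⁻¹ = ((zu A a b) ^ 3 * tu A a b)⁻¹ := by
        rw [mul_inv, inv_pow]
      rw [h1]
      refine key _ _ _ ?_ D.r2
      push_cast
      rw [map_mul, map_pow, ψ_zu, ψ_tu]
  exact congrArg (fun f => f v) h

theorem compat : spMap (ρ1 D) ≫ WX.in1 A a b = spMap (ρ2 D) ≫ spMap (e2 D) ≫ WX.in2 A a b := by
  have h1 : ρ1 D = (ψ D).comp (g1 A a b) := RingHom.ext fun v => (ψ_1 D v).symm
  have h2 : (ρ2 D).comp (e2 D) = (ψ D).comp (g2 A a b) := RingHom.ext fun v => (ψ_2 D v).symm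
  have h3 := pushout.condition (f := spMap (g1 A a b)) (g := spMap (g2 A a b))
  rw [← Category.assoc, ← PBS.spMap_comp, h2, h1, PBS.spMap_comp, PBS.spMap_comp, Category.assoc,
    Category.assoc]
  exact congrArg (fun f => spMap (ψ D) ≫ f) h3

theorem i1_π : i1 D hU ≫ C.π = spMap (algebraMap A (A1 A a b)) := by
  unfold i1 ww
  rw [Category.assoc, NOD.fromSpec_coef, ← PBS.spMap_comp]
  refine congrArg (fun f => spMap f) (RingHom.ext fun c => ?_)
  change E1 D (coef C.π L.U c) = _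
  rw [← E1_lift D (algebraMap A _ c), lift1_b]

theorem jV_π : jV D ≫ C.π = spMap (coef C.π D.V) := NOD.fromSpec_coef _ _

theorem gm_e2 (v : A2 A a b) : gm (C.σ 0) D.V D.sV (e2 D v) = inf2 A a b v := by
  have h : (gm (C.σ 0) D.V D.sV).comp (e2 D) = inf2 A a b := by
    refine hom2_ext ?_ ?_ ?_
    · intro c
      rw [RingHom.comp_apply, e2, lift2_b, gm_sec, inf2, lift2_b]
      rfl
    · rw [RingHom.comp_apply, e2, lift2_z, D.ez, inf2, lift2_z]
    · rw [RingHom.comp_apply, e2, lift2_t, D.et, inf2, lift2_t]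
  exact congrArg (fun f => f v) h

/-- The morphism to the Weierstrass curve. -/
structure Mor where
  f : C.X ⟶ WX A a b
  f1 : i1 D hU ≫ f = WX.in1 A a b
  f2 : jV D ≫ f = spMap (e2 D) ≫ WX.in2 A a b
  fπ : f ≫ WX.pr A a b = C.π
  fσ : C.σ 0 ≫ f = spMap (inf2 A a b) ≫ WX.in2 A a b

include hUV in
theorem exists_mor : Nonempty (Mor D hU) := by
  obtain ⟨_, _, hP⟩ := push D hU hUV
  obtain ⟨f, f1, f2⟩ : ∃ f : C.X ⟶ WX A a b, i1 D hU ≫ f = WX.in1 A a b ∧
      jV D ≫ f = spMap (e2 D) ≫ WX.in2 A a b :=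
    ⟨hP.desc _ _ (compat D), hP.inl_desc _ _ _, hP.inr_desc _ _ _⟩
  refine ⟨⟨f, f1, f2, ?_, ?_⟩⟩
  · apply hP.hom_ext
    · rw [← Category.assoc, f1, WX.in1_pr, i1_π]
    · rw [← Category.assoc, f2, Category.assoc, WX.in2_pr, jV_π, ← PBS.spMap_comp]
      refine congrArg (fun f => spMap f) (RingHom.ext fun c => ?_)
      rw [RingHom.comp_apply, e2, lift2_b]
  · have h1 := eq_fromSpec (C.σ 0) D.V D.aV D.sV
    rw [h1, Category.assoc]
    refine (congrArg (fun g => spMap (gm (C.σ 0) D.V D.sV) ≫ g) f2).trans ?_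
    rw [← Category.assoc, ← PBS.spMap_comp]
    refine congrArg (fun g => spMap g ≫ WX.in2 A a b) (RingHom.ext fun v => ?_)
    exact gm_e2 D v

end maps

section iso

variable {L : LC C} {a b : A} {D : CD L a b} {hU : IsAffineOpen L.U} (M : Mor D hU)

/-- The image of the section at infinity does not meet the affine chart. -/
theorem inf_notin (q : Sp A) : (spMap (inf2 A a b) ≫ WX.in2 A a b) q ∉
    Set.range (WX.in1 A a b) := by
  rintro ⟨p, hp⟩
  rw [Scheme.Hom.comp_apply] at hp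
  obtain ⟨w, -, hw⟩ := glue2_eq (spMap (g1 A a b)) (spMap (g2 A a b)) p _ hp
  have h1 := (WBC.range_g2 A a b _).1 ⟨w, hw⟩
  apply h1
  change inf2 A a b (z2 A a b) ∈ q.asIdeal
  rw [inf2, lift2_z]
  exact zero_mem _

theorem mem_U_iff (z : C.X) : M.f z ∈ Set.range (WX.in1 A a b) ↔ z ∈ L.U := by
  constructor
  · intro h
    by_contra hz
    rw [L.mU, not_not] at hz
    obtain ⟨q, rfl⟩ := hz
    rw [← Scheme.Hom.comp_apply, M.fσ] at h
    exact inf_notin q h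
  · intro h
    have h' : z ∈ (i1 D hU).opensRange := by rw [ww_range]; exact h
    obtain ⟨p, rfl⟩ := h'
    refine ⟨p, ?_⟩
    rw [← Scheme.Hom.comp_apply, M.f1]

theorem f_injective : Function.Injective M.f := by
  intro z z' h
  by_cases hz : z ∈ L.U
  · have hz' : z' ∈ L.U := by rw [← mem_U_iff M, ← h, mem_U_iff M]; exact hz
    have h1 : z ∈ (i1 D hU).opensRange := by rw [ww_range]; exact hz
    have h2 : z' ∈ (i1 D hU).opensRange := by rw [ww_range]; exact hz'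
    obtain ⟨p, rfl⟩ := h1
    obtain ⟨p', rfl⟩ := h2
    rw [← Scheme.Hom.comp_apply, ← Scheme.Hom.comp_apply, M.f1] at h
    rw [(WX.in1 A a b).isOpenEmbedding.injective h]
  · have hz' : z' ∉ L.U := by rw [← mem_U_iff M, ← h, mem_U_iff M]; exact hz
    rw [L.mU, not_not] at hz hz'
    obtain ⟨q, rfl⟩ := hz
    obtain ⟨q', rfl⟩ := hz'
    have h1 := congrArg (WX.pr A a b) h
    have h3 : ∀ q : Sp A, WX.pr A a b (M.f (C.σ 0 q)) = q := by
      intro q
      rw [← Scheme.Hom.comp_apply, M.fπ, ← Scheme.Hom.comp_apply, C.sec]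
      rfl
    rw [h3, h3] at h1
    rw [h1]

theorem f_finite (hC : IsProper C.π) : IsFinite M.f := by
  have h1 : IsProper (M.f ≫ WX.pr A a b) := by
    rw [M.fπ]
    exact hC
  have h2 : IsProper (WX.pr A a b) := (t_WPR A a b).1
  have h3 : IsProper M.f := IsProper.of_comp M.f (WX.pr A a b)
  have h4 : LocallyQuasiFinite M.f := LocallyQuasiFinite.of_injective (f_injective M)
  exact IsFinite.of_isProper_of_locallyQuasiFinite M.f

/-- The two charts of the Weierstrass curve. -/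
noncomputable abbrev R1 (A : Type) [CommRing A] (a b : A) : (WX A a b).Opens :=
  (WX.in1 A a b).opensRange

/-- The two charts of the Weierstrass curve. -/
noncomputable abbrev R2 (A : Type) [CommRing A] (a b : A) : (WX A a b).Opens :=
  (WX.in2 A a b).opensRange

theorem pre1 : M.f ⁻¹ᵁ (R1 A a b) = L.U := by
  ext z
  exact mem_U_iff M z

theorem le1 : ⊤ ≤ (WX.in1 A a b) ⁻¹ᵁ (R1 A a b) := fun p _ => ⟨p, rfl⟩

theorem le2 : ⊤ ≤ (WX.in2 A a b) ⁻¹ᵁ (R2 A a b) := fun p _ => ⟨p, rfl⟩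

theorem i1_le : ⊤ ≤ (i1 D hU) ⁻¹ᵁ (M.f ⁻¹ᵁ (R1 A a b)) := by
  rw [pre1]
  exact ww_le hU (E1 D)

theorem bij1 : Function.Bijective (M.f.app (R1 A a b)).hom := by
  have hr : (i1 D hU).opensRange = M.f ⁻¹ᵁ (R1 A a b) := by rw [pre1, ww_range]
  have h1 := gm_bij (i1 D hU) (M.f ⁻¹ᵁ (R1 A a b)) (i1_le M) hr
  have h2 := gm_bij (WX.in1 A a b) (R1 A a b) le1 rfl
  have h3 : ∀ v, gm (i1 D hU) (M.f ⁻¹ᵁ (R1 A a b)) (i1_le M) ((M.f.app (R1 A a b)).hom v) =
      gm (WX.in1 A a b) (R1 A a b) le1 v := by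
    intro v
    have := gm_nat M.f (WX.in1 A a b) (i1 D hU) (RingHom.id _)
      (by rw [M.f1]; exact (spMap_id_comp _).symm) (R1 A a b) (M.f ⁻¹ᵁ (R1 A a b)) le1 (i1_le M)
      le_rfl v
    rw [Scheme.Hom.appLE_eq_app] at this
    exact this
  have h4 : Function.Bijective ((gm (i1 D hU) (M.f ⁻¹ᵁ (R1 A a b)) (i1_le M)) ∘
      (M.f.app (R1 A a b)).hom) := by
    have : (gm (i1 D hU) (M.f ⁻¹ᵁ (R1 A a b)) (i1_le M)) ∘ (M.f.app (R1 A a b)).hom =
        gm (WX.in1 A a b) (R1 A a b) le1 := funext h3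
    rw [this]
    exact h2
  exact (Function.Bijective.of_comp_iff' h1 _).1 h4

/-- The preimage of the chart at infinity. -/
noncomputable abbrev N : C.X.Opens := M.f ⁻¹ᵁ (R2 A a b)

theorem V_le : D.V ≤ N M := by
  intro z hz
  have h : z ∈ Set.range (jV D) := by
    rw [D.aV.range_fromSpec]
    exact hz
  obtain ⟨p, rfl⟩ := h
  change M.f (jV D p) ∈ R2 A a b
  rw [← Scheme.Hom.comp_apply, M.f2, Scheme.Hom.comp_apply]
  exact ⟨_, rfl⟩

theorem sN : ⊤ ≤ (C.σ 0) ⁻¹ᵁ (N M) := D.sV.trans fun _ h => V_le M h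

/-- The intersection of the charts. -/
noncomputable abbrev k12 (_ : Mor D hU) : Sp (A12 A a b) ⟶ C.X :=
  spMap (g1 A a b) ≫ i1 D hU

theorem k12_f : k12 M ≫ M.f = spMap (g2 A a b) ≫ WX.in2 A a b := by
  rw [Category.assoc, M.f1]
  exact pushout.condition (f := spMap (g1 A a b)) (g := spMap (g2 A a b))

theorem k12_range : (k12 M).opensRange = L.U ⊓ N M := by
  ext z
  constructor
  · rintro ⟨p, rfl⟩
    refine ⟨?_, ?_⟩
    · change (k12 M) p ∈ L.U
      rw [Scheme.Hom.comp_apply]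
      exact ww_le hU (E1 D) (show _ ∈ ⊤ by trivial)
    · change M.f (k12 M p) ∈ R2 A a b
      rw [← Scheme.Hom.comp_apply, k12_f, Scheme.Hom.comp_apply]
      exact ⟨_, rfl⟩
  · rintro ⟨h1, h2⟩
    have h1' : z ∈ (i1 D hU).opensRange := by rw [ww_range]; exact h1
    obtain ⟨p, rfl⟩ := h1'
    have h3 : M.f (i1 D hU p) ∈ R2 A a b := h2
    rw [← Scheme.Hom.comp_apply, M.f1] at h3
    obtain ⟨p', hp'⟩ := h3
    obtain ⟨w, hw, -⟩ := glue2_eq (spMap (g1 A a b)) (spMap (g2 A a b)) p p' hp'.symm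
    refine ⟨w, ?_⟩
    rw [Scheme.Hom.comp_apply, hw]

theorem k12_le : ⊤ ≤ (k12 M) ⁻¹ᵁ (L.U ⊓ N M) := by
  intro p _
  have : k12 M p ∈ (k12 M).opensRange := ⟨p, rfl⟩
  rw [k12_range] at this
  exact this

/-- The functions on the preimage of the chart at infinity. -/
noncomputable def θ : Γ(WX A a b, R2 A a b) →+* Γ(C.X, N M) := (M.f.app (R2 A a b)).hom

theorem θ_12 (v : Γ(WX A a b, R2 A a b)) :
    gm (k12 M) (L.U ⊓ N M) (k12_le M) (rs C.X inf_le_right (θ M v)) =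
      g2 A a b (gm (WX.in2 A a b) (R2 A a b) le2 v) := by
  have hle : ⊤ ≤ (k12 M) ⁻¹ᵁ (N M) := (k12_le M).trans fun _ h => h.2
  rw [gm_id_rs _ _ hle]
  have := gm_nat M.f (WX.in2 A a b) (k12 M) (g2 A a b) (k12_f M) (R2 A a b) (N M) le2 hle le_rfl v
  rw [Scheme.Hom.appLE_eq_app] at this
  exact this

theorem θ_σ (v : Γ(WX A a b, R2 A a b)) :
    gm (C.σ 0) (N M) (sN M) (θ M v) = inf2 A a b (gm (WX.in2 A a b) (R2 A a b) le2 v) := by
  have := gm_nat M.f (WX.in2 A a b) (C.σ 0) (inf2 A a b) M.fσ (R2 A a b) (N M) le2 (sN M)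
    le_rfl v
  rw [Scheme.Hom.appLE_eq_app] at this
  exact this

theorem res_inj (hFLK : Stmt_FLK) (r : Γ(C.X, N M))
    (h : rs C.X (inf_le_right : L.U ⊓ N M ≤ N M) r = 0) : r = 0 := by
  have h1 : rs C.X (V_le M) r = 0 := by
    apply (hFLK L D.V D.leV).2.1
    rw [rs_rs']
    have h2 := congrArg (rs C.X (inf_le_inf_left L.U (V_le M) : L.U ⊓ D.V ≤ L.U ⊓ N M)) h
    rw [rs_rs', map_zero] at h2
    exact h2
  apply C.X.sheaf.eq_of_locally_eq₂ (homOfLE (inf_le_right : L.U ⊓ N M ≤ N M)) (homOfLE (V_le M))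
  · intro z hz
    rcases cover D z with h' | h'
    · exact Or.inl ⟨h', hz⟩
    · exact Or.inr h'
  · exact h.trans (map_zero (rs C.X (inf_le_right : L.U ⊓ N M ≤ N M))).symm
  · exact h1.trans (map_zero (rs C.X (V_le M))).symm

theorem bij2 (hFLK : Stmt_FLK) : Function.Bijective (θ M) := by
  have hg2 : Function.Bijective (gm (WX.in2 A a b) (R2 A a b) le2) :=
    gm_bij (WX.in2 A a b) (R2 A a b) le2 rfl
  have hg12 : Function.Bijective (gm (k12 M) (L.U ⊓ N M) (k12_le M)) :=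
    gm_bij (k12 M) (L.U ⊓ N M) (k12_le M) (k12_range M)
  obtain ⟨-, w2, w3, -⟩ := t_WRG A a b
  constructor
  · rw [injective_iff_map_eq_zero]
    intro v hv
    have h := θ_12 M v
    rw [hv, map_zero, map_zero] at h
    exact (map_eq_zero_iff _ hg2.1).1 ((map_eq_zero_iff _ w3).1 h.symm)
  · obtain ⟨zW, hzW⟩ := hg2.2 (z2 A a b)
    have nz : ∀ r, θ M zW * r = 0 → r = 0 := by
      intro r hr
      apply res_inj M hFLK
      apply (map_eq_zero_iff _ hg12.1).1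
      have h := congrArg (fun r => gm (k12 M) (L.U ⊓ N M) (k12_le M) (rs C.X inf_le_right r)) hr
      simp only [map_mul, map_zero] at h
      rw [θ_12, hzW] at h
      exact ((zu A a b).isUnit.mul_right_eq_zero).1 h
    have key : ∀ (n : ℕ) (h : Γ(C.X, N M)) (s : Γ(WX A a b, R2 A a b)),
        θ M zW ^ n * h = θ M s → ∃ v, θ M v = h := by
      intro n
      induction n with
      | zero =>
        intro h s hs
        exact ⟨s, by rw [← hs, pow_zero, one_mul]⟩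
      | succ n ih =>
        intro h s hs
        have h1 := congrArg (gm (C.σ 0) (N M) (sN M)) hs
        rw [map_mul, map_pow, θ_σ, θ_σ, hzW] at h1
        have h2 : inf2 A a b (z2 A a b) = 0 := by rw [inf2, lift2_z]
        rw [h2, pow_succ, mul_zero, zero_mul] at h1
        have h3 := w2 (gm (WX.in2 A a b) (R2 A a b) le2 s)
        rw [← h1, map_zero, sub_zero, Ideal.mem_span_singleton] at h3
        obtain ⟨c, hc⟩ := h3
        obtain ⟨s', rfl⟩ := hg2.2 c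
        have h4 : s = zW * s' := by
          apply hg2.1
          rw [map_mul, hzW, hc]
        apply ih h s'
        rw [← sub_eq_zero]
        apply nz
        have h5 : θ M s = θ M zW * θ M s' := by rw [h4, map_mul]
        rw [h5] at hs
        linear_combination hs
    intro h
    obtain ⟨⟨s, ⟨_, n, rfl⟩⟩, hs⟩ := IsLocalization.surj (Submonoid.powers (z2 A a b))
      (gm (k12 M) (L.U ⊓ N M) (k12_le M) (rs C.X inf_le_right h))
    obtain ⟨sW, rfl⟩ := hg2.2 s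
    apply key n h sW
    rw [← sub_eq_zero]
    apply res_inj M hFLK
    apply (map_eq_zero_iff _ hg12.1).1
    rw [map_sub, map_sub, map_mul, map_mul, map_pow, map_pow, θ_12, θ_12, hzW, sub_eq_zero, mul_comm]
    have hs' : _ * g2 A a b (z2 A a b ^ n) = g2 A a b _ := hs
    rw [← hs', map_pow]

theorem isIso_of_affine {X Y : Scheme.{0}} (f : X ⟶ Y) [IsAffine X] [IsAffine Y]
    (h : IsIso f.appTop) : IsIso f :=
  (MorphismProperty.arrow_mk_iso_iff (MorphismProperty.isomorphisms _)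
    (arrowIsoSpecΓOfIsAffine f)).mpr (inferInstanceAs (IsIso (Spec.map (f.appTop))))

theorem f_iso (hC : IsProper C.π) (hFLK : Stmt_FLK) : IsIso M.f := by
  have hf := f_finite M hC
  have haff : ∀ U : (WX A a b).Opens, IsAffineOpen U → Function.Bijective (M.f.app U).hom →
      IsIso (M.f ∣_ U) := by
    intro U hU' hb
    have a1 : IsAffine (M.f ⁻¹ᵁ U).toScheme := hU'.preimage M.f
    have a2 : IsAffine U.toScheme := hU'
    have h1 : IsIso (M.f.app U) := (ConcreteCategory.isIso_iff_bijective (M.f.app U)).2 hb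
    have h2 : IsIso (M.f.app (U.ι ''ᵁ ⊤)) := by
      rw [Scheme.Opens.ι_image_top]
      exact h1
    have h3 := morphismRestrict_app M.f U ⊤
    apply isIso_of_affine
    change IsIso ((M.f ∣_ U).app ⊤)
    rw [h3]
    exact IsIso.comp_isIso' h2 (Functor.map_isIso _ _)
  refine IsZariskiLocalAtTarget.of_iSup_eq_top (P := MorphismProperty.isomorphisms Scheme)
    (fun b' : Bool => if b' then R1 A a b else R2 A a b) ?_ ?_
  · rw [iSup_bool_eq]
    exact glue2_range _ _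
  · rintro (_ | _)
    · exact haff _ (isAffineOpen_opensRange _) (bij2 M hFLK)
    · exact haff _ (isAffineOpen_opensRange _) (bij1 M)

end iso

end FCH

theorem FCH.arrow_of {A : Type} [CommRing A] {C : Fam 1 A} {a b : A} (f : C.X ⟶ WX A a b)
    (hiso : IsIso f) (fπ : f ≫ WX.pr A a b = C.π)
    (fσ : C.σ 0 ≫ f = spMap (inf2 A a b) ≫ WX.in2 A a b) :
    Nonempty (Arrow (RingHom.id A) (Wei (WZ a b)) C) := by
  have hid : spMap (RingHom.id A) = 𝟙 _ := Spec.map_id _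
  have hiso' : IsIso (spMap (RingHom.id A)) := by
    rw [hid]
    infer_instance
  have hw : inv f ≫ C.π = WX.pr A a b ≫ spMap (RingHom.id A) := by
    rw [hid, Category.comp_id, IsIso.inv_comp_eq]
    exact fπ.symm
  have hc : IsPullback (inv f) (WX.pr A a b) C.π (spMap (RingHom.id A)) :=
    IsPullback.of_horiz_isIso ⟨hw⟩
  have hs : (spMap (inf2 A a b) ≫ WX.in2 A a b) ≫ inv f = spMap (RingHom.id A) ≫ C.σ 0 := by
    rw [hid, Category.id_comp, IsIso.comp_inv_eq]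
    exact fσ.symm
  obtain ⟨g, hg⟩ : ∃ g : WX A a b ⟶ C.X, g = inv f := ⟨_, rfl⟩
  rw [← hg] at hc hs
  refine ⟨⟨g, hc, fun i => ?_⟩⟩
  have hi : i = 0 := Fin.fin_one_eq_zero i
  subst hi
  exact hs

theorem t_FCH (hFLK : Stmt_FLK) : Stmt_FCH := by
  intro A _ C hC L hU x y hx hy a b e bij
  obtain ⟨D⟩ := FCH.exists_CD hFLK L hx hy e bij
  have hUV : IsAffineOpen (L.U ⊓ D.V) := inf_affine hC hU D.aV
  obtain ⟨M⟩ := FCH.exists_mor D hU hUV
  exact FCH.arrow_of M.f (FCH.f_iso M hC hFLK) M.fπ M.fσ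

end Pool.Agent.MG.WL
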