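import Pool.Agent.MG.WL.FIN.Stmts

/-!
# Module FCP: two coordinates at the section define the same pole orders
-/

open CategoryTheory CategoryTheory.Limits AlgebraicGeometry TensorProduct

namespace Pool.Agent.MG.WL

open Pool.Agent.MG.W Pool.Agent.MG.One Pool.Agent.MG.GLU

namespace FCP

section glue

variable {X : Scheme.{0}}

theorem rs_rs {U V W : X.Opens} (h : U ≤ V) (h' : V ≤ W) (a : Γ(X, W)) :
    rs X h (rs X h' a) = rs X (h.trans h') a := by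
  change (X.presheaf.map (homOfLE h').op ≫ X.presheaf.map (homOfLE h).op) a = _
  rw [← Functor.map_comp, ← op_comp]
  rfl

/-- Gluing of two functions. -/
theorem glue {U V W I : X.Opens} (h1 : U ≤ W) (h2 : V ≤ W) (hc : W ≤ U ⊔ V)
    (i1 : I ≤ U) (i2 : I ≤ V) (hI : U ⊓ V ≤ I)
    (a : Γ(X, U)) (b : Γ(X, V)) (hab : rs X i1 a = rs X i2 b) :
    ∃ c : Γ(X, W), rs X h1 c = a ∧ rs X h2 c = b := by
  have hle : ∀ i : Bool, (Bool.rec V U i : X.Opens) ≤ W := by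
    intro i
    cases i
    · exact h2
    · exact h1
  have key : ∀ (Z : X.Opens) (z1 : Z ≤ U) (z2 : Z ≤ V), rs X z1 a = rs X z2 b := by
    intro Z z1 z2
    have hZ : Z ≤ I := (le_inf z1 z2).trans hI
    have e1 : rs X z1 a = rs X hZ (rs X i1 a) := (rs_rs _ _ _).symm
    have e2 : rs X z2 b = rs X hZ (rs X i2 b) := (rs_rs _ _ _).symm
    rw [e1, e2, hab]
  obtain ⟨c, hc1, -⟩ := X.sheaf.existsUnique_gluing' (fun i : Bool => (Bool.rec V U i : X.Opens)) W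
    (fun i => homOfLE (hle i))
    (by
      refine hc.trans (sup_le ?_ ?_)
      · exact le_iSup (fun i : Bool => (Bool.rec V U i : X.Opens)) true
      · exact le_iSup (fun i : Bool => (Bool.rec V U i : X.Opens)) false)
    (fun i => match i with
      | true => a
      | false => b)
    (by
      intro i j
      rcases i with _ | _ <;> rcases j with _ | _
      · rfl
      · exact (key _ _ _).symm
      · exact key _ _ _
      · rfl)
  exact ⟨c, hc1 true, hc1 false⟩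

end glue

section

variable {A : Type} [CommRing A] {C : Fam 1 A}

/-- The section as a point of the spectrum, evaluation of constants. -/
theorem gm_const (W : C.X.Opens) (h : ⊤ ≤ (C.σ 0) ⁻¹ᵁ W) (a : A) :
    gm (C.σ 0) W h (coef C.π W a) = a := by
  have h1 : C.σ 0 ≫ C.π = spMap (RingHom.id A) := by
    rw [C.sec]
    exact (Spec.map_id (CommRingCat.of A)).symm
  rw [gm_coef (C.σ 0) C.π (RingHom.id A) h1 W h a]
  rfl

theorem gm_res {W W' : C.X.Opens} (hW : W' ≤ W) (h : ⊤ ≤ (C.σ 0) ⁻¹ᵁ W)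
    (h' : ⊤ ≤ (C.σ 0) ⁻¹ᵁ W') (v : Γ(C.X, W)) :
    gm (C.σ 0) W' h' (rs C.X hW v) = gm (C.σ 0) W h v := by
  have h1 : C.σ 0 = spMap (RingHom.id A) ≫ C.σ 0 := by
    have : spMap (RingHom.id A) = 𝟙 (Sp A) := Spec.map_id (CommRingCat.of A)
    rw [this, Category.id_comp]
  rw [gm_rs (C.σ 0) (RingHom.id A) (C.σ 0) h1 hW h h' v]
  rfl

theorem gm_t (L : LC C) : gm (C.σ 0) L.V L.le L.t = 0 :=
  (L.ker L.t).2 ⟨1, (mul_one _).symm⟩

theorem sec_inf (L L' : LC C) : ⊤ ≤ (C.σ 0) ⁻¹ᵁ (L.V ⊓ L'.V) :=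
  fun x hx => ⟨L.le hx, L'.le hx⟩

theorem units (hFLK : Stmt_FLK) (L L' : LC C) : ∃ u w : Γ(C.X, L.V ⊓ L'.V), u * w = 1 ∧
    rs C.X (inf_le_right : L.V ⊓ L'.V ≤ L'.V) L'.t =
      rs C.X (inf_le_left : L.V ⊓ L'.V ≤ L.V) L.t * w := by
  obtain ⟨h1, -, h3⟩ := hFLK L (L.V ⊓ L'.V) inf_le_left
  obtain ⟨-, -, h6⟩ := hFLK L' (L.V ⊓ L'.V) inf_le_right
  obtain ⟨w, hw⟩ := h3 (sec_inf L L') (rs C.X inf_le_right L'.t) (by
    rw [gm_res inf_le_right L'.le, gm_t])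
  obtain ⟨u, hu⟩ := h6 (sec_inf L L') (rs C.X inf_le_left L.t) (by
    rw [gm_res inf_le_left L.le, gm_t])
  refine ⟨u, w, ?_, hw⟩
  have h := h1 (u * w - 1) (by
    have : rs C.X (inf_le_left : L.V ⊓ L'.V ≤ L.V) L.t * (u * w - 1) =
        (rs C.X (inf_le_left : L.V ⊓ L'.V ≤ L.V) L.t * w) * u -
          rs C.X (inf_le_left : L.V ⊓ L'.V ≤ L.V) L.t := by ring
    rw [this, ← hw, ← hu, sub_self])
  exact sub_eq_zero.1 h

theorem main (L L' : LC C) (hU : L'.U ≤ L.U) (u w : Γ(C.X, L.V ⊓ L'.V))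
    (hw : rs C.X (inf_le_right : L.V ⊓ L'.V ≤ L'.V) L'.t =
      rs C.X (inf_le_left : L.V ⊓ L'.V ≤ L.V) L.t * w)
    (n : ℕ) (c : A) (X : Γ(C.X, L.U)) (hX : L.Pole n c X) :
    L'.Pole n (gm (C.σ 0) (L.V ⊓ L'.V) (sec_inf L L') w ^ n * c) (rs C.X hU X) := by
  obtain ⟨r, hr⟩ := hX
  have lI1 : (L'.U ⊓ L'.V) ⊓ (L.V ⊓ L'.V) ≤ L.U ⊓ L.V := fun x hx => ⟨hU hx.1.1, hx.2.1⟩
  have hcov : L'.V ≤ (L'.U ⊓ L'.V) ⊔ (L.V ⊓ L'.V) := fun x hx => by
    by_cases h : x ∈ L'.U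
    · exact Or.inl ⟨h, hx⟩
    · right
      refine ⟨?_, hx⟩
      rw [L'.mU, not_not] at h
      obtain ⟨y, rfl⟩ := h
      exact L.le (Set.mem_univ y)
  obtain ⟨Y, hY1, hY2⟩ := glue (X := C.X) (U := L'.U ⊓ L'.V) (V := L.V ⊓ L'.V) (W := L'.V)
    (I := (L'.U ⊓ L'.V) ⊓ (L.V ⊓ L'.V)) inf_le_right inf_le_right hcov inf_le_left inf_le_right
    le_rfl (rs C.X inf_le_right L'.t ^ n * rs C.X inf_le_left (rs C.X hU X))
    (w ^ n * rs C.X inf_le_left (coef C.π L.V c + L.t * r)) (by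
      have e := congrArg (rs C.X lI1) hr
      have ew := congrArg (rs C.X (inf_le_right : (L'.U ⊓ L'.V) ⊓ (L.V ⊓ L'.V) ≤
        L.V ⊓ L'.V)) hw
      simp only [map_mul, map_pow, rs_rs] at e ew ⊢
      rw [ew, mul_pow, mul_comm (_ ^ n) (_ ^ n), mul_assoc, e])
  have hgY : gm (C.σ 0) L'.V L'.le Y =
      gm (C.σ 0) (L.V ⊓ L'.V) (sec_inf L L') w ^ n * c := by
    rw [← gm_res inf_le_right L'.le (sec_inf L L') Y, hY2, map_mul, map_pow,
      gm_res inf_le_left L.le (sec_inf L L'), map_add, map_mul, gm_t, zero_mul, add_zero, gm_const]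
  obtain ⟨r', hr'⟩ := (L'.ker (Y - coef C.π L'.V
    (gm (C.σ 0) (L.V ⊓ L'.V) (sec_inf L L') w ^ n * c))).1 (by
      rw [map_sub, gm_const, hgY, sub_self])
  refine ⟨r', ?_⟩
  rw [← hr', add_sub_cancel, hY1]

end

end FCP

theorem t_FCP (hFLK : Stmt_FLK) : Stmt_FCP := fun {_} _ {C} L L' hU => by
  obtain ⟨u, w, huw, hw⟩ := FCP.units hFLK L L'
  refine ⟨gm (C.σ 0) (L.V ⊓ L'.V) (FCP.sec_inf L L') w, ?_, fun n c X hX =>
    FCP.main L L' hU u w hw n c X hX⟩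
  refine IsUnit.map _ ?_
  exact IsUnit.of_mul_eq_one u (by rw [mul_comm]; exact huw)

end Pool.Agent.MG.WL
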