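import Pool.Agent.MG.WL.FIN.Stmts
import Pool.Agent.MG.WL.LCB
import Pool.Agent.MG.W.WRG

/-!
# The geometric fibres of a curve with functions with poles of order two and three
-/

open CategoryTheory CategoryTheory.Limits AlgebraicGeometry TensorProduct

namespace Pool.Agent.MG.WL

open Pool.Agent.MG.W Pool.Agent.MG.One Pool.Agent.MG.GLU

namespace FGF

/-- The inverse of an arrow over the identity. -/
noncomputable def invArrow {n : ℕ} {k : Type} [CommRing k] {C y : Fam n k}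
    (f : Arrow (RingHom.id k) C y) [IsIso f.f] : Arrow (RingHom.id k) y C where
  f := inv f.f
  cart := by
    have hid : spMap (RingHom.id k) = 𝟙 _ := Spec.map_id _
    have hw := f.cart.w
    rw [hid, Category.comp_id] at hw
    rw [hid]
    exact IsPullback.of_horiz_isIso ⟨by rw [← hw, IsIso.inv_hom_id_assoc, Category.comp_id]⟩
  sec i := by
    have hid : spMap (RingHom.id k) = 𝟙 _ := Spec.map_id _
    have h := f.sec i
    rw [hid, Category.id_comp] at h
    rw [hid, Category.id_comp, ← h, Category.assoc, IsIso.hom_inv_id, Category.comp_id]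

/-- An arrow over a composition with the identity. -/
noncomputable def castArrow {n : ℕ} {A k : Type} [CommRing A] [CommRing k] {s s' : A →+* k}
    (h : s' = s) {y : Fam n k} {C : Fam n A} (f : Arrow s' y C) : Arrow s y C where
  f := f.f
  cart := by rw [← h]; exact f.cart
  sec i := by rw [← h]; exact f.sec i

theorem rs_appLE {X X' : Scheme.{0}} (f : X' ⟶ X) {U W : X.Opens} {U' W' : X'.Opens}
    (hW : U ≤ W) (hW' : U' ≤ W') (h1 : W' ≤ f ⁻¹ᵁ W)
    (h2 : U' ≤ f ⁻¹ᵁ U) (v : Γ(X, W)) :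
    (f.appLE U U' h2).hom (rs X hW v) = rs X' hW' ((f.appLE W W' h1).hom v) := by
  change (X.presheaf.map (homOfLE hW).op ≫ f.appLE U U' h2) v =
    (f.appLE W W' h1 ≫ X'.presheaf.map (homOfLE hW').op) v
  rw [Scheme.Hom.map_appLE, Scheme.Hom.appLE_map]

/-- Poles of pull backs. -/
theorem pole_pb {A B : Type} [CommRing A] [CommRing B] {φ : A →+* B} {C : Fam 1 A} {y : Fam 1 B}
    (a : Arrow φ y C) (L : LC C) (L' : LC y) (h : L.Bc a L') (n : ℕ) (c : A) (X : Γ(C.X, L.U))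
    (hX : L.Pole n c X) :
    L'.Pole n (φ c) ((a.f.appLE L.U L'.U h.U.le).hom X) := by
  obtain ⟨r, hr⟩ := hX
  have hUV : L'.U ⊓ L'.V ≤ a.f ⁻¹ᵁ (L.U ⊓ L.V) := by
    rw [h.U, h.V]
    exact le_of_eq rfl
  have h1 := congrArg (a.f.appLE (L.U ⊓ L.V) (L'.U ⊓ L'.V) hUV).hom hr
  rw [map_mul, map_pow, rs_appLE a.f _ inf_le_right h.V.le hUV,
    rs_appLE a.f _ inf_le_left h.U.le hUV, rs_appLE a.f _ inf_le_right h.V.le hUV, map_add,
    map_mul, coef_arrow a.cart.w, ← h.t] at h1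
  exact ⟨_, h1⟩

theorem inf2_z (k : Type) [CommRing k] (a b : k) : inf2 k a b (z2 k a b) = 0 := lift2_z _ _ _ _

theorem inf2_b (k : Type) [CommRing k] (a b c : k) : inf2 k a b (algebraMap k _ c) = c :=
  lift2_b _ _ _ _ _

theorem zz1 (k : Type) [CommRing k] (a b : k) :
    (zu k a b).val ^ 2 * ((zu k a b)⁻¹ ^ 2 * (tu k a b)⁻¹ : (A12 k a b)ˣ).val =
      ((tu k a b)⁻¹ : (A12 k a b)ˣ).val := by
  have : (zu k a b) ^ 2 * ((zu k a b)⁻¹ ^ 2 * (tu k a b)⁻¹) = (tu k a b)⁻¹ := by group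
  exact congrArg Units.val this

/-- Leading coefficient of functions with a pole of order two. -/
theorem lead2 (k : Type) [Field k] (a b : k) (v : A1 k a b) (v2 : A2 k a b)
    (h : (zu k a b).val ^ 2 * g1 k a b v = g2 k a b v2) (h2 : inf2 k a b v2 ≠ 0) :
    ∃ d c : k, d ≠ 0 ∧ v = algebraMap k _ d * x1 k a b + algebraMap k _ c := by
  obtain ⟨-, -, hinj, -, -, -, h7, -⟩ := t_WRG k a b
  obtain ⟨c, d, hv⟩ := h7 v v2 h
  refine ⟨d, c, ?_, by rw [hv, add_comm]⟩
  rintro rfl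
  apply h2
  rw [hv, map_zero, zero_mul, add_zero, g1_b] at h
  have h3 : g2 k a b v2 = g2 k a b (z2 k a b ^ 2 * algebraMap k _ c) := by
    rw [← h, map_mul, map_pow, zu_val, g2_b]
  rw [hinj h3, map_mul, map_pow, inf2_z]
  ring

/-- Leading coefficient of functions with a pole of order three. -/
theorem lead3 (k : Type) [Field k] (a b : k) (v : A1 k a b) (v2 : A2 k a b)
    (h : (zu k a b).val ^ 3 * g1 k a b v = g2 k a b v2) (h2 : inf2 k a b v2 ≠ 0) :
    ∃ e d c : k, e ≠ 0 ∧ v = algebraMap k _ e * y1 k a b + algebraMap k _ d * x1 k a b +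
      algebraMap k _ c := by
  obtain ⟨-, -, hinj, -, -, -, -, h8⟩ := t_WRG k a b
  obtain ⟨c, d, e, hv⟩ := h8 v v2 h
  refine ⟨e, d, c, ?_, by rw [hv]; ring⟩
  rintro rfl
  apply h2
  obtain ⟨w, hw⟩ := (t2_unit k a b).exists_right_inv
  have hw' : ((tu k a b)⁻¹ : (A12 k a b)ˣ).val = g2 k a b w := by
    have h3 : (tu k a b : A12 k a b) * g2 k a b w = 1 := by
      rw [tu_val, ← map_mul, hw, map_one]
    exact Units.inv_eq_of_mul_eq_one_right h3
  have h3 : g2 k a b v2 = g2 k a b (z2 k a b * (z2 k a b ^ 2 * algebraMap k _ c +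
      algebraMap k _ d * w)) := by
    rw [← h, hv, map_zero, zero_mul, add_zero, map_add, map_mul, g1_b, g1_b, g1_x, map_mul,
      map_add, map_mul, map_pow, map_mul, g2_b, g2_b, ← hw', ← zz1, zu_val]
    ring
  rw [hinj h3, map_mul, inf2_z, zero_mul]

end FGF

open FGF in
theorem t_FGF (hCL : Stmt_CL) (hLCB : Stmt_LCB) (hFCP : Stmt_FCP) (hFLW : Stmt_FLW) :
    Stmt_FGF := by
  intro A _ _ C hC L x y hx hy k _ _ s
  have hchar : CharZero k := by
    have : Function.Injective (s.comp (algebraMap ℂ A)) := RingHom.injective _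
    exact charZero_of_injective_ringHom this
  obtain ⟨a, b, hab, f, hf⟩ := hCL (PBS.bc s C) (PBS.bc_stable s C hC)
  let e : Arrow s (Wei (WZ a b)) C :=
    castArrow (RingHom.id_comp s) (PBS.comp (invArrow f) (PBS.bcArrow s C))
  obtain ⟨L', hB⟩ := hLCB e L
  obtain ⟨L'', h, hU, hpole⟩ := hFLW a b
  have hUU : L''.U = L'.U := by
    ext z
    change z ∈ L''.U ↔ z ∈ L'.U
    rw [L''.mU, L'.mU]
  obtain ⟨u, hu, hcp⟩ := hFCP L' L'' hUU.le
  have hu0 : u ≠ 0 := hu.ne_zero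
  have hle : ⊤ ≤ (WX.in1 k a b ≫ e.f) ⁻¹ᵁ L.U := by
    intro p hp
    have h1 : (WX.in1 k a b) p ∈ L''.U := h hp
    rw [hUU, hB.U] at h1
    exact h1
  have hgm : ∀ v : Γ(C.X, L.U), gm (WX.in1 k a b ≫ e.f) L.U hle v =
      gm (WX.in1 k a b) L''.U h
        (rs (Wei (WZ a b)).X hUU.le ((e.f.appLE L.U L'.U hB.U.le).hom v)) := by
    intro v
    have h1 : rs (Wei (WZ a b)).X hUU.le ((e.f.appLE L.U L'.U hB.U.le).hom v) =
        (e.f.appLE L.U L''.U (hUU.le.trans hB.U.le)).hom v := by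
      change (e.f.appLE L.U L'.U hB.U.le ≫ (Wei (WZ a b)).X.presheaf.map (homOfLE hUU.le).op) v =
        _
      rw [Scheme.Hom.appLE_map]
    have hc : WX.in1 k a b ≫ e.f = spMap (RingHom.id (A1 k a b)) ≫ (WX.in1 k a b ≫ e.f) := by
      rw [show spMap (RingHom.id (A1 k a b)) = 𝟙 _ from Spec.map_id _, Category.id_comp]
    have h2 := gm_nat (X := C.X) (X' := (Wei (WZ a b)).X) e.f (WX.in1 k a b ≫ e.f)
      (WX.in1 k a b) (RingHom.id (A1 k a b)) hc L.U L''.U hle h (hUU.le.trans hB.U.le) v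
    rw [h1]
    exact h2.symm
  -- the function x
  have hx' := hcp 2 _ _ (pole_pb e L L' hB 2 1 x hx)
  obtain ⟨v2, hv2, hv2'⟩ := hpole _ _ _ hx'
  rw [map_one, mul_one] at hv2'
  obtain ⟨α, β, hα, hxe⟩ := lead2 k a b _ _ hv2 (by rw [hv2']; exact pow_ne_zero _ hu0)
  -- the function y
  have hy' := hcp 3 _ _ (pole_pb e L L' hB 3 1 y hy)
  obtain ⟨w2, hw2, hw2'⟩ := hpole _ _ _ hy'
  rw [map_one, mul_one] at hw2'
  obtain ⟨γ, δ, ε, hγ, hye⟩ := lead3 k a b _ _ hw2 (by rw [hw2']; exact pow_ne_zero _ hu0)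
  exact ⟨{
    a := a
    b := b
    ab := hab
    e := e
    rng := by rw [← hB.U, ← hUU, hU]
    le := hle
    α := α
    β := β
    γ := γ
    δ := δ
    ε := ε
    hα := hα
    hγ := hγ
    hx := by rw [hgm, hxe]
    hy := by rw [hgm, hye] }⟩

end Pool.Agent.MG.WL
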