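import Pool.Agent.MG.WL.FIN.Stmts

/-!
# FIN: assembly
-/

open CategoryTheory CategoryTheory.Limits AlgebraicGeometry TensorProduct TopologicalSpace

namespace Pool.Agent.MG.WL

open Pool.Agent.MG.W Pool.Agent.MG.One Pool.Agent.MG.GLU

namespace FINA

open Polynomial

theorem cubic {K : Type} [Field K] {u v w u' p q r : K} (h : C u * X ^ 3 + C v * X + C w =
    C u' * X ^ 3 + C p * X ^ 2 + C q * X + C r) : p = 0 ∧ v = q ∧ w = r := by
  refine ⟨?_, ?_, ?_⟩
  · have := congrArg (fun f => coeff f 2) h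
    simp [coeff_X_pow] at this
    exact this.symm
  · have := congrArg (fun f => coeff f 1) h
    simpa [coeff_X, coeff_C, coeff_X_pow] using this
  · have := congrArg (fun f => coeff f 0) h
    simpa [coeff_X, coeff_C, coeff_X_pow] using this

/-- A Weierstrass curve with a cuspidal equation. -/
theorem cusp {K : Type} [Field K] (h6 : (6 : K) ≠ 0) {a b α β γ δ ε : K} (hα : α ≠ 0)
    (hγ : γ ≠ 0) (h : (algebraMap K (A1 K a b) γ * y1 K a b + algebraMap K _ δ * x1 K a b +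
      algebraMap K _ ε) ^ 2 = (algebraMap K _ α * x1 K a b + algebraMap K _ β) ^ 3) :
    a = 0 ∧ b = 0 := by
  have h2 : (2 : K) ≠ 0 := fun h => h6 (by linear_combination 3 * h)
  have h3 : (3 : K) ≠ 0 := fun h => h6 (by linear_combination 2 * h)
  have hrel := rel1 K a b
  let pL : K[X] := C (γ ^ 2) * (X ^ 3 + C a * X + C b) + (C δ * X + C ε) ^ 2
  let qL : K[X] := C (2 * γ) * (C δ * X + C ε)
  let pR : K[X] := (C α * X + C β) ^ 3
  obtain ⟨pq, -, hu⟩ := (t_WRG K a b).1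
    ((algebraMap K _ α * x1 K a b + algebraMap K _ β) ^ 3)
  have e1 : (pL, qL) = pq := by
    apply hu
    rw [← h]
    simp only [pL, qL, map_add, map_mul, map_pow, aeval_C, aeval_X, map_ofNat]
    linear_combination (algebraMap K (A1 K a b) γ) ^ 2 * hrel
  have e2 : (pR, 0) = pq := by
    apply hu
    simp only [pR, map_add, map_mul, map_pow, aeval_C, aeval_X, map_zero, zero_mul, add_zero]
  have e3 := e1.trans e2.symm
  have eq : qL = 0 := congrArg Prod.snd e3
  have ep : pL = pR := congrArg Prod.fst e3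
  have hq : C δ * X + C ε = (0 : K[X]) := by
    rcases mul_eq_zero.1 eq with h | h
    · rw [C_eq_zero] at h
      exact absurd h (mul_ne_zero h2 hγ)
    · exact h
  have ep' : C (γ ^ 2) * (X ^ 3 + C a * X + C b) = (C α * X + C β) ^ 3 := by
    have h1 : C (γ ^ 2) * (X ^ 3 + C a * X + C b) + (C δ * X + C ε) ^ 2 =
      (C α * X + C β) ^ 3 := ep
    rw [hq] at h1
    rw [← h1]
    ring
  have ex : C (γ ^ 2) * X ^ 3 + C (γ ^ 2 * a) * X + C (γ ^ 2 * b) =
      C (α ^ 3) * X ^ 3 + C (3 * α ^ 2 * β) * X ^ 2 + C (3 * α * β ^ 2) * X + C (β ^ 3) := by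
    have h1 : C (γ ^ 2) * X ^ 3 + C (γ ^ 2 * a) * X + C (γ ^ 2 * b) =
        C (γ ^ 2) * (X ^ 3 + C a * X + C b) := by
      simp only [map_mul]
      ring
    rw [h1, ep']
    simp only [map_mul, map_pow, map_ofNat]
    ring
  obtain ⟨c2, c1, c0⟩ := cubic ex
  have hβ : β = 0 := by
    rcases mul_eq_zero.1 c2 with h | h
    · exact absurd h (mul_ne_zero h3 (pow_ne_zero 2 hα))
    · exact h
  rw [hβ] at c1 c0
  refine ⟨?_, ?_⟩
  · have : γ ^ 2 * a = 0 := by rw [c1]; ring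
    exact (mul_eq_zero.1 this).resolve_left (pow_ne_zero 2 hγ)
  · have : γ ^ 2 * b = 0 := by rw [c0]; ring
    exact (mul_eq_zero.1 this).resolve_left (pow_ne_zero 2 hγ)

variable {A : Type} [CommRing A] {C : Fam 1 A}

theorem pole_add {L : LC C} {x : Γ(C.X, L.U)} (hx : L.Pole 2 1 x) (β : A) :
    L.Pole 2 1 (x + coef C.π L.U β) := by
  obtain ⟨r, hr⟩ := hx
  refine ⟨r + L.t * coef C.π L.V β, ?_⟩
  rw [map_one] at hr ⊢
  simp only [map_add, map_mul, map_one, coef_rs, mul_add] at hr ⊢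
  linear_combination hr

theorem pole_add3 {L : LC C} {x y : Γ(C.X, L.U)} (hx : L.Pole 2 1 x) (hy : L.Pole 3 1 y)
    (δ ε : A) : L.Pole 3 1 (y + coef C.π L.U δ * x + coef C.π L.U ε) := by
  obtain ⟨r, hr⟩ := hx
  obtain ⟨r', hr'⟩ := hy
  refine ⟨r' + coef C.π L.V δ * (1 + L.t * r) + L.t ^ 2 * coef C.π L.V ε, ?_⟩
  rw [map_one] at hr hr' ⊢
  simp only [map_add, map_mul, map_pow, map_one, coef_rs, mul_add] at hr hr' ⊢
  linear_combination hr' + rs C.X (inf_le_right : L.U ⊓ L.V ≤ L.V) L.t *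
    coef C.π (L.U ⊓ L.V) δ * hr

theorem fin_of (L : LC C) (x : Γ(C.X, L.U)) (aU : IsAffineOpen L.U) (h : IsFinite (xm L x)) :
    (Polynomial.eval₂RingHom (coef C.π L.U) x).Finite := by
  have h1 : IsFinite (spMap (Polynomial.eval₂RingHom (coef C.π L.U) x)) := by
    have h2 : spMap (Polynomial.eval₂RingHom (coef C.π L.U) x) = aU.isoSpec.inv ≫ xm L x := by
      rw [xm, aU.isoSpec_inv_toSpecΓ_assoc]
    rw [h2]
    infer_instance
  exact (IsFinite.SpecMap_iff _).1 h1

theorem in1_w {K : Type} [CommRing K] {s : A →+* K} {a b : K} (f : WX K a b ⟶ C.X)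
    (hw : f ≫ C.π = WX.pr K a b ≫ spMap s) :
    (WX.in1 K a b ≫ f) ≫ C.π = spMap ((algebraMap K (A1 K a b)).comp s) := by
  rw [Category.assoc, hw, PBS.spMap_comp, ← Category.assoc, WX.in1_pr]

theorem exists_geo (A : Type) [CommRing A] (m : Ideal A) (hm : m.IsMaximal) :
    ∃ (K : Type) (_ : Field K) (_ : IsAlgClosed K) (s : A →+* K), ∀ a ∈ m, s a = 0 := by
  have := hm
  let _ : Field (A ⧸ m) := Ideal.Quotient.field m
  refine ⟨AlgebraicClosure (A ⧸ m), inferInstance, inferInstance,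
    (algebraMap (A ⧸ m) (AlgebraicClosure (A ⧸ m))).comp (Ideal.Quotient.mk m), fun a ha => ?_⟩
  rw [RingHom.comp_apply, Ideal.Quotient.eq_zero_iff_mem.2 ha, map_zero]

end FINA

open FINA in
theorem t_FIN (hFLK : Stmt_FLK) (hFGF : Stmt_FGF) (hFPR : Stmt_FPR) (hFQF : Stmt_FQF)
    (hFSP : Stmt_FSP) (hFAL : Stmt_FAL) (hFCH : Stmt_FCH) : Stmt_FIN := by
  intro A _ _ C hC L x y hx hy
  have G : AllGF L x y := hFGF A C hC L x y hx hy
  have hp : IsProper C.π := hC.proper
  have p1 : IsProper (xm L x) := hFPR hp L 1 x hx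
  have q1 : LocallyQuasiFinite (xm L x) := hFQF hp L x y G
  have f1 : IsFinite (xm L x) := IsFinite.of_isProper_of_locallyQuasiFinite _
  have aU : IsAffineOpen L.U := isAffine_of_isAffineHom (xm L x)
  have span := hFSP L x y G aU (fin_of L x aU f1)
  have six : IsUnit (6 : A) := by
    have h : IsUnit (algebraMap ℂ A 6) := (IsUnit.mk0 (6 : ℂ) (by norm_num)).map _
    rwa [map_ofNat] at h
  have hu : IsUnit (rs C.X (inf_le_right : L.U ⊓ L.V ≤ L.V) L.t) := by
    have key : ∀ (W : C.X.Opens) (h : W ≤ L.V), C.X.basicOpen L.t = W → IsUnit (rs C.X h L.t) := by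
      intro W h hW
      subst hW
      exact C.X.toRingedSpace.isUnit_res_basicOpen L.t
    exact key _ _ L.bas
  have hinj : Function.Injective (rs C.X (inf_le_right : L.U ⊓ L.V ≤ L.V)) := by
    rw [injective_iff_map_eq_zero]
    exact (hFLK L L.V le_rfl).2.1
  obtain ⟨a, b, β, δ, ε, e, bij⟩ := hFAL (coef C.π L.U) (coef C.π L.V)
    (rs C.X (inf_le_left : L.U ⊓ L.V ≤ L.U)) (rs C.X (inf_le_right : L.U ⊓ L.V ≤ L.V))
    (fun c => by rw [coef_rs, coef_rs]) hinj L.t hu (gm (C.σ 0) L.V L.le)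
    (fun c => gm_coef (C.σ 0) C.π (RingHom.id A)
      (by rw [C.sec]; exact (Spec.map_id _).symm) L.V L.le c) L.ker six x y
    (by
      obtain ⟨r, hr⟩ := hx
      rw [map_one] at hr
      exact ⟨r, hr⟩)
    (by
      obtain ⟨r, hr⟩ := hy
      rw [map_one] at hr
      exact ⟨r, hr⟩) span
  refine ⟨a, b, ?_, hFCH hp L aU _ _ (pole_add hx β) (pole_add3 hx hy δ ε) a b e bij⟩
  by_contra hne
  obtain ⟨m, hm, hle⟩ := Ideal.exists_le_maximal _ hne
  obtain ⟨K, _, _, s, hs⟩ := exists_geo A m hm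
  obtain ⟨g⟩ := G K s
  have hsa : s a = 0 := hs a (hle (Ideal.subset_span (Set.mem_insert _ _)))
  have hsb : s b = 0 := hs b (hle (Ideal.subset_span (Set.mem_insert_of_mem _ rfl)))
  have h6 : (6 : K) ≠ 0 := by
    have := six.map s
    rw [map_ofNat] at this
    exact this.ne_zero
  have hc : ∀ c, gm (WX.in1 K g.a g.b ≫ g.e.f) L.U g.le (coef C.π L.U c) =
      algebraMap K _ (s c) := by
    intro c
    exact gm_coef _ C.π ((algebraMap K (A1 K g.a g.b)).comp s) (in1_w g.e.f g.e.cart.w) L.U g.le c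
  have h := congrArg (gm (WX.in1 K g.a g.b ≫ g.e.f) L.U g.le) e
  simp only [map_add, map_mul, map_pow, hc, g.hx, g.hy, hsa, hsb, map_zero, zero_mul,
    add_zero] at h
  have h' := cusp (K := K) h6 (a := g.a) (b := g.b) (α := g.α) (β := g.β + s β) (γ := g.γ)
    (δ := g.δ + s δ * g.α) (ε := g.ε + s δ * g.β + s ε) g.hα g.hγ (by
      simp only [map_add, map_mul]
      linear_combination h)
  rcases g.ab with h1 | h1
  · exact h1 h'.1
  · exact h1 h'.2

end Pool.Agent.MG.WL
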