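import Pool.Agent.MG.WL.FIN.Stmts

/-!
# FLK: the coordinate at the section is a nonzerodivisor and generates the ideal of the section
-/

open CategoryTheory CategoryTheory.Limits AlgebraicGeometry TensorProduct

namespace Pool.Agent.MG.WL

open Pool.Agent.MG.W Pool.Agent.MG.One Pool.Agent.MG.GLU

namespace FLK

theorem rr {X : Scheme.{0}} {U V W : X.Opens} (h : U ≤ V) (h' : V ≤ W) (a : Γ(X, W)) :
    rs X h (rs X h' a) = rs X (h.trans h') a := by
  change (X.presheaf.map (homOfLE h').op ≫ X.presheaf.map (homOfLE h).op) a = _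
  rw [← Functor.map_comp, ← op_comp]
  rfl

/-- A function which vanishes locally is zero. -/
theorem zero_of_local {X : Scheme.{0}} {O : X.Opens} (s : Γ(X, O))
    (h : ∀ x ∈ O, ∃ (W : X.Opens) (hW : W ≤ O), x ∈ W ∧ rs X hW s = 0) : s = 0 := by
  choose W hW hx h0 using h
  refine X.sheaf.eq_of_locally_eq' (fun x : O => W x.1 x.2) O (fun x => homOfLE (hW x.1 x.2))
    (fun x hx' => TopologicalSpace.Opens.mem_iSup.2 ⟨⟨x, hx'⟩, hx x hx'⟩) s 0 fun x => ?_
  exact (h0 x.1 x.2).trans (map_zero (rs X (hW x.1 x.2))).symm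

/-- Local quotients by a nonzerodivisor glue. -/
theorem glue_quot {X : Scheme.{0}} {O : X.Opens} (t r : Γ(X, O))
    (hreg : ∀ (W : X.Opens) (hW : W ≤ O) (s : Γ(X, W)), rs X hW t * s = 0 → s = 0)
    (h : ∀ x ∈ O, ∃ (W : X.Opens) (hW : W ≤ O) (s : Γ(X, W)), x ∈ W ∧
      rs X hW r = rs X hW t * s) : ∃ s, r = t * s := by
  choose W hW s hx h0 using h
  obtain ⟨c, hc, -⟩ := X.sheaf.existsUnique_gluing' (fun x : O => W x.1 x.2) O
    (fun x => homOfLE (hW x.1 x.2))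
    (fun x hx' => TopologicalSpace.Opens.mem_iSup.2 ⟨⟨x, hx'⟩, hx x hx'⟩)
    (fun x => s x.1 x.2) (by
      intro x y
      have e : ∀ (a b : Γ(X, W x.1 x.2 ⊓ W y.1 y.2)),
          rs X (inf_le_left.trans (hW x.1 x.2)) t * a = rs X (inf_le_left.trans (hW x.1 x.2)) t * b →
            a = b := by
        intro a b hab
        rw [← sub_eq_zero, ← mul_sub] at hab
        exact sub_eq_zero.1 (hreg _ _ _ hab)
      refine e _ _ ?_
      have e1 := congrArg (rs X (inf_le_left : W x.1 x.2 ⊓ W y.1 y.2 ≤ _)) (h0 x.1 x.2)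
      have e2 := congrArg (rs X (inf_le_right : W x.1 x.2 ⊓ W y.1 y.2 ≤ _)) (h0 y.1 y.2)
      rw [map_mul, rr, rr] at e1 e2
      exact e1.symm.trans e2)
  refine ⟨c, ?_⟩
  rw [← sub_eq_zero]
  refine zero_of_local _ fun x hx' => ⟨W x hx', hW x hx', hx x hx', ?_⟩
  rw [map_sub, map_mul, h0 x hx', sub_eq_zero]
  congr 1
  exact (hc ⟨x, hx'⟩).symm

section

variable {A : Type} [CommRing A] {C : Fam 1 A} (L : LC C)

theorem reg_V (s : Γ(C.X, L.V)) (h : L.t * s = 0) : s = 0 := by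
  let f := Polynomial.eval₂RingHom (coef C.π L.V) L.t
  have hf : f.Flat := L.flat
  let _ := f.toAlgebra
  have : Module.Flat (Polynomial A) Γ(C.X, L.V) := hf
  have h1 : IsSMulRegular (Polynomial A) (Polynomial.X : Polynomial A) :=
    Polynomial.isRegular_X.left.isSMulRegular
  have h2 := h1.of_flat (S := Γ(C.X, L.V))
  have h3 : algebraMap (Polynomial A) Γ(C.X, L.V) Polynomial.X = L.t := Polynomial.eval₂_X _ _
  rw [h3] at h2
  exact h2 (by
    change L.t * s = L.t * 0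
    rw [h, mul_zero])

theorem reg_basic (g : Γ(C.X, L.V)) (s : Γ(C.X, C.X.basicOpen g))
    (h : rs C.X (C.X.basicOpen_le g) L.t * s = 0) : s = 0 := by
  have hl := L.aff.isLocalization_basicOpen g
  let _ : Algebra Γ(C.X, L.V) Γ(C.X, C.X.basicOpen g) := (rs C.X (C.X.basicOpen_le g)).toAlgebra
  have hl' : IsLocalization.Away g Γ(C.X, C.X.basicOpen g) := hl
  have : Module.Flat Γ(C.X, L.V) Γ(C.X, C.X.basicOpen g) :=
    IsLocalization.flat _ (Submonoid.powers g)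
  have h1 : IsSMulRegular Γ(C.X, L.V) L.t := by
    intro a b hab
    have hab' : L.t * a = L.t * b := hab
    rw [← sub_eq_zero, ← mul_sub] at hab'
    exact sub_eq_zero.1 (reg_V L _ hab')
  have h2 := h1.of_flat (S := Γ(C.X, C.X.basicOpen g))
  exact h2 (by
    change rs C.X (C.X.basicOpen_le g) L.t * s = rs C.X (C.X.basicOpen_le g) L.t * 0
    rw [h, mul_zero])

/-- The basic open sets of `V` in `O`. -/
theorem exists_basic {O : C.X.Opens} (hO : O ≤ L.V) (x : C.X) (hx : x ∈ O) :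
    ∃ g : Γ(C.X, L.V), C.X.basicOpen g ≤ O ∧ x ∈ C.X.basicOpen g :=
  L.aff.exists_basicOpen_le ⟨x, hx⟩ (hO hx)

theorem reg (O : C.X.Opens) (hO : O ≤ L.V) (s : Γ(C.X, O)) (h : rs C.X hO L.t * s = 0) :
    s = 0 := by
  refine zero_of_local s fun x hx => ?_
  obtain ⟨g, hg, hxg⟩ := exists_basic L hO x hx
  refine ⟨_, hg, hxg, reg_basic L g _ ?_⟩
  have := congrArg (rs C.X hg) h
  rw [map_mul, rr, map_zero] at this
  exact this

theorem pow_reg (O : C.X.Opens) (hO : O ≤ L.V) (n : ℕ) (s : Γ(C.X, O))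
    (h : rs C.X hO L.t ^ n * s = 0) : s = 0 := by
  induction n with
  | zero => rwa [pow_zero, one_mul] at h
  | succ n ih =>
    apply ih
    apply reg L O hO
    rw [← h]
    ring

theorem zero_of_U (O : C.X.Opens) (hO : O ≤ L.V) (s : Γ(C.X, O))
    (h : rs C.X (inf_le_right : L.U ⊓ O ≤ O) s = 0) : s = 0 := by
  refine zero_of_local s fun x hx => ?_
  obtain ⟨g, hg, hxg⟩ := exists_basic L hO x hx
  refine ⟨_, hg, hxg, ?_⟩
  have haff : IsAffineOpen (C.X.basicOpen g) := L.aff.basicOpen g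
  let t' : Γ(C.X, C.X.basicOpen g) := rs C.X (C.X.basicOpen_le g) L.t
  have hb : C.X.basicOpen t' ≤ L.U ⊓ O := by
    have h1 : C.X.basicOpen t' = C.X.basicOpen g ⊓ C.X.basicOpen L.t :=
      Scheme.basicOpen_res C.X L.t (homOfLE (C.X.basicOpen_le g)).op
    rw [h1, L.bas]
    exact le_inf (inf_le_right.trans inf_le_left) (inf_le_left.trans hg)
  obtain ⟨n, hn⟩ := exists_pow_mul_eq_zero_of_res_basicOpen_eq_zero_of_isAffineOpen C.X haff
    (rs C.X hg s) t' (by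
      have h2 := congrArg (rs C.X hb) h
      rw [rr, map_zero] at h2
      change rs C.X (C.X.basicOpen_le t') (rs C.X hg s) = 0
      rw [rr]
      exact h2)
  exact pow_reg L _ (C.X.basicOpen_le g) n _ hn

/-- Division by the coordinate away from the section. -/
theorem quot_U (O : C.X.Opens) (hO : O ≤ L.V) (r : Γ(C.X, O)) :
    ∃ s : Γ(C.X, L.U ⊓ O), rs C.X inf_le_right r =
      rs C.X inf_le_right (rs C.X hO L.t) * s := by
  have h1 : L.U ⊓ O ≤ C.X.basicOpen L.t := by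
    rw [L.bas]
    exact inf_le_inf_left _ hO
  have h2 : IsUnit (rs C.X (C.X.basicOpen_le L.t) L.t) :=
    RingedSpace.isUnit_res_basicOpen _ L.t
  have h3 : IsUnit (rs C.X (inf_le_right : L.U ⊓ O ≤ O) (rs C.X hO L.t)) := by
    have := h2.map (rs C.X h1)
    rw [rr] at this
    rw [rr]
    exact this
  obtain ⟨u, hu⟩ := h3
  refine ⟨(↑u⁻¹ : Γ(C.X, L.U ⊓ O)) * rs C.X inf_le_right r, ?_⟩
  rw [← hu, ← mul_assoc, Units.mul_inv, one_mul]

/-- Division by the coordinate at a point of the section. -/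
theorem quot_sec (O : C.X.Opens) (hO : O ≤ L.V) (h : ⊤ ≤ (C.σ 0) ⁻¹ᵁ O) (r : Γ(C.X, O))
    (hr : gm (C.σ 0) O h r = 0) (q : Sp A) :
    ∃ (W : C.X.Opens) (hW : W ≤ O) (s : Γ(C.X, W)), (C.σ 0) q ∈ W ∧
      rs C.X hW r = rs C.X hW (rs C.X hO L.t) * s := by
  have hx : (C.σ 0) q ∈ O := h (Set.mem_univ q)
  obtain ⟨g, hg, hxg⟩ := exists_basic L hO _ hx
  have hl := L.aff.isLocalization_basicOpen g
  let ρ := rs C.X (C.X.basicOpen_le g)
  let _ : Algebra Γ(C.X, L.V) Γ(C.X, C.X.basicOpen g) := ρ.toAlgebra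
  have hl' : IsLocalization.Away g Γ(C.X, C.X.basicOpen g) := hl
  -- `g ^ m r = r'`
  obtain ⟨⟨r', ⟨_, m, rfl⟩⟩, hr'⟩ := IsLocalization.surj (Submonoid.powers g) (rs C.X hg r)
  change rs C.X hg r * ρ (g ^ m) = ρ r' at hr'
  -- the localisation of the base
  let a := gm (C.σ 0) L.V L.le g
  let u : A →+* Localization.Away a := algebraMap A (Localization.Away a)
  have hle0 : ⊤ ≤ (spMap u ≫ C.σ 0) ⁻¹ᵁ L.V := fun p _ => L.le (Set.mem_univ (spMap u p))
  have hle : ⊤ ≤ (spMap u ≫ C.σ 0) ⁻¹ᵁ (C.X.basicOpen g) := by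
    have e1 : gm (spMap u ≫ C.σ 0) L.V hle0 g = u a := gm_comp (C.σ 0) u _ rfl L.V L.le hle0 g
    have e2 : IsUnit (u a) := IsLocalization.Away.algebraMap_isUnit a
    have e3 : IsUnit ((Scheme.ΓSpecIso (CommRingCat.of (Localization.Away a))).inv.hom
        (gm (spMap u ≫ C.σ 0) L.V hle0 g)) := by
      rw [e1]
      exact e2.map _
    have e4 : (Scheme.ΓSpecIso (CommRingCat.of (Localization.Away a))).inv.hom
        (gm (spMap u ≫ C.σ 0) L.V hle0 g) = ((spMap u ≫ C.σ 0).appLE L.V ⊤ hle0).hom g := by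
      change ((Scheme.ΓSpecIso (CommRingCat.of (Localization.Away a))).hom ≫
        (Scheme.ΓSpecIso (CommRingCat.of (Localization.Away a))).inv)
          (((spMap u ≫ C.σ 0).appLE L.V ⊤ hle0).hom g) = _
      rw [Iso.hom_inv_id]
      rfl
    rw [e4] at e3
    have e5 := Scheme.basicOpen_of_isUnit _ e3
    have e6 := Scheme.basicOpen_appLE (spMap u ≫ C.σ 0) ⊤ L.V hle0 g
    rw [← e5]
    exact e6.le.trans inf_le_right
  have h1 : gm (spMap u ≫ C.σ 0) (C.X.basicOpen g) hle (rs C.X hg r) = 0 := by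
    rw [gm_rs (C.σ 0) u (spMap u ≫ C.σ 0) rfl hg h hle r, hr, map_zero]
  have h2 : u (gm (C.σ 0) L.V L.le r') = 0 := by
    rw [← gm_rs (C.σ 0) u (spMap u ≫ C.σ 0) rfl (C.X.basicOpen_le g) L.le hle r']
    change gm (spMap u ≫ C.σ 0) (C.X.basicOpen g) hle (ρ r') = 0
    rw [← hr', map_mul, h1, zero_mul]
  obtain ⟨⟨_, j, rfl⟩, hj⟩ := (IsLocalization.map_eq_zero_iff (Submonoid.powers a)
    (Localization.Away a) _).1 h2
  change a ^ j * gm (C.σ 0) L.V L.le r' = 0 at hj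
  obtain ⟨s', hs'⟩ := (L.ker (g ^ j * r')).1 (by rw [map_mul, map_pow]; exact hj)
  have hu : IsUnit (ρ g) := RingedSpace.isUnit_res_basicOpen _ g
  obtain ⟨v, hv⟩ := hu
  refine ⟨_, hg, ((v⁻¹ ^ (j + m) : (Γ(C.X, C.X.basicOpen g))ˣ) : Γ(C.X, C.X.basicOpen g)) * ρ s',
    hxg, ?_⟩
  rw [rr]
  change rs C.X hg r = ρ L.t * _
  have h3 : (v : Γ(C.X, C.X.basicOpen g)) ^ (j + m) * rs C.X hg r = ρ L.t * ρ s' := by
    rw [← map_mul, ← hs', map_mul, map_pow, ← hr', map_pow, hv]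
    ring
  have h4 : ((v⁻¹ ^ (j + m) : (Γ(C.X, C.X.basicOpen g))ˣ) : Γ(C.X, C.X.basicOpen g)) *
      (v : Γ(C.X, C.X.basicOpen g)) ^ (j + m) = 1 := by
    rw [← Units.val_pow_eq_pow_val, ← Units.val_mul, ← mul_pow, inv_mul_cancel, one_pow,
      Units.val_one]
  calc rs C.X hg r = (((v⁻¹ ^ (j + m) : (Γ(C.X, C.X.basicOpen g))ˣ) :
        Γ(C.X, C.X.basicOpen g)) * (v : Γ(C.X, C.X.basicOpen g)) ^ (j + m)) * rs C.X hg r := by
        rw [h4, one_mul]
    _ = ((v⁻¹ ^ (j + m) : (Γ(C.X, C.X.basicOpen g))ˣ) : Γ(C.X, C.X.basicOpen g)) *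
        ((v : Γ(C.X, C.X.basicOpen g)) ^ (j + m) * rs C.X hg r) := mul_assoc _ _ _
    _ = _ := by
        rw [h3]
        ring

end

end FLK

theorem t_FLK : Stmt_FLK := by
  intro A _ C L O hO
  refine ⟨FLK.reg L O hO, FLK.zero_of_U L O hO, fun h r hr => ?_⟩
  refine FLK.glue_quot (rs C.X hO L.t) r (fun W hW s hs => ?_) fun x hx => ?_
  · rw [FLK.rr] at hs
    exact FLK.reg L W (hW.trans hO) s hs
  · by_cases hxU : x ∈ L.U
    · obtain ⟨s, hs⟩ := FLK.quot_U L O hO r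
      exact ⟨_, inf_le_right, s, ⟨hxU, hx⟩, hs⟩
    · rw [L.mU, not_not] at hxU
      obtain ⟨q, rfl⟩ := hxU
      exact FLK.quot_sec L O hO h r hr q

end Pool.Agent.MG.WL
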