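import Pool.Agent.MG.WL.FIN.Stmts
import Pool.Agent.MG.W.All

/-!
# FLW: the coordinate `z` of a Weierstrass curve over a field
-/

open CategoryTheory CategoryTheory.Limits AlgebraicGeometry TensorProduct

namespace Pool.Agent.MG.WL

open Pool.Agent.MG.W Pool.Agent.MG.One Pool.Agent.MG.GLU

namespace FLW

section alg

variable {k : Type} [Field k] (a b : k)

theorem inf2_z : inf2 k a b (z2 k a b) = 0 := lift2_z _ _ _ _

theorem inf2_b (c : k) : inf2 k a b (algebraMap k _ c) = c := lift2_b _ _ _ _ c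

theorem inf2_eq_zero_iff (v : A2 k a b) : inf2 k a b v = 0 ↔ ∃ s, v = z2 k a b * s := by
  constructor
  · intro h
    have hd := (t_WRG k a b).2.1 v
    rw [h, map_zero, sub_zero, Ideal.mem_span_singleton] at hd
    exact hd
  · rintro ⟨s, rfl⟩
    rw [map_mul, inf2_z, zero_mul]

theorem z2_ne : z2 k a b ≠ 0 := by
  intro h
  have hd := (t_WDM k a b).2.1
  have h3 : g2 k a b (z2 k a b) = 0 := (congrArg (fun v => g2 k a b v) h).trans (map_zero _)
  have hu : IsUnit (0 : A12 k a b) := by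
    have h4 := (zu k a b).isUnit
    rw [zu_val] at h4
    exact h3 ▸ h4
  have h01 : (0 : A12 k a b) = 1 := isUnit_zero_iff.mp hu
  have h2 : g2 k a b 0 = g2 k a b 1 := by rw [map_zero, map_one, h01]
  exact zero_ne_one ((t_WRG k a b).2.2.1 h2)

/-- Polynomials in `z`. -/
noncomputable def pz : Polynomial k →+* A2 k a b :=
  Polynomial.eval₂RingHom (algebraMap k (A2 k a b)) (z2 k a b)

theorem inf2_pz (q : Polynomial k) : inf2 k a b (pz a b q) = q.eval 0 := by
  have h : (inf2 k a b).comp (pz a b) = Polynomial.evalRingHom 0 := by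
    refine Polynomial.ringHom_ext ?_ ?_
    · intro c
      rw [RingHom.comp_apply, pz, Polynomial.coe_eval₂RingHom, Polynomial.eval₂_C, inf2_b]
      simp
    · rw [RingHom.comp_apply, pz, Polynomial.coe_eval₂RingHom, Polynomial.eval₂_X, inf2_z]
      simp
  exact congrArg (fun F => F q) h

theorem pz_inj (p : Polynomial k) (hp : pz a b p = 0) : p = 0 := by
  have hd := (t_WDM k a b).2.1
  by_contra hp0
  obtain ⟨q, hq, hnd⟩ := p.exists_eq_pow_rootMultiplicity_mul_and_not_dvd hp0 0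
  have h1 : pz a b (Polynomial.X - Polynomial.C 0) = z2 k a b := by
    rw [map_zero, sub_zero, pz, Polynomial.coe_eval₂RingHom, Polynomial.eval₂_X]
  rw [hq, map_mul, map_pow, h1] at hp
  have h2 : pz a b q = 0 := by
    rcases mul_eq_zero.mp hp with h | h
    · exact absurd h (pow_ne_zero _ (z2_ne a b))
    · exact h
  have h3 : q.eval 0 = 0 := by rw [← inf2_pz, h2, map_zero]
  exact hnd (Polynomial.dvd_iff_isRoot.mpr h3)

theorem pz_flat : (pz a b).Flat := by
  have hd := (t_WDM k a b).2.1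
  let _ := (pz a b).toAlgebra
  change Module.Flat (Polynomial k) (A2 k a b)
  rw [IsDedekindDomain.flat_iff_torsion_eq_bot, eq_bot_iff]
  rintro m ⟨⟨r, hr⟩, h⟩
  have h1 : pz a b r * m = 0 := h
  rcases mul_eq_zero.mp h1 with h2 | h2
  · exact absurd (pz_inj a b r h2) (nonZeroDivisors.ne_zero hr)
  · exact h2

end alg

section geo

variable {k : Type} [Field k] (a b : k)

/-- The curve without the point at infinity. -/
noncomputable def Uo : (WX k a b).Opens := (WX.in1 k a b).opensRange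

/-- The chart at infinity. -/
noncomputable def Vo : (WX k a b).Opens := (WX.in2 k a b).opensRange

theorem hV : ⊤ ≤ (WX.in2 k a b) ⁻¹ᵁ (Vo a b) := by
  intro z _
  exact ⟨z, rfl⟩

theorem hU : ⊤ ≤ (WX.in1 k a b) ⁻¹ᵁ (Uo a b) := by
  intro z _
  exact ⟨z, rfl⟩

theorem cond (w : Sp (A12 k a b)) : WX.in1 k a b (spMap (g1 k a b) w) =
    WX.in2 k a b (spMap (g2 k a b) w) := by
  rw [← Scheme.Hom.comp_apply, ← Scheme.Hom.comp_apply]
  exact congrArg (fun (ψ : Sp (A12 k a b) ⟶ WX k a b) => ψ w)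
    (pushout.condition (f := spMap (g1 k a b)) (g := spMap (g2 k a b)))

theorem mem_Uo (y : Sp (A2 k a b)) : WX.in2 k a b y ∈ Uo a b ↔ z2 k a b ∉ y.asIdeal := by
  constructor
  · rintro ⟨x, hx⟩
    obtain ⟨w, -, hw⟩ := glue2_eq (spMap (g1 k a b)) (spMap (g2 k a b)) x y hx
    exact (WBC.range_g2 k a b y).1 ⟨w, hw⟩
  · intro h
    obtain ⟨w, hw⟩ := (WBC.range_g2 k a b y).2 h
    refine ⟨spMap (g1 k a b) w, ?_⟩
    rw [← hw]
    exact cond a b w

theorem sig : (Wei (WZ a b)).σ 0 = spMap (inf2 k a b) ≫ WX.in2 k a b := rfl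

theorem mem_Uo_iff (z : WX k a b) : z ∈ Uo a b ↔ z ∉ Set.range ((Wei (WZ a b)).σ 0) := by
  constructor
  · rintro hz ⟨s, hs⟩
    have h1 : WX.in2 k a b (spMap (inf2 k a b) s) ∈ Uo a b := by
      rw [← Scheme.Hom.comp_apply]
      have h2 : (spMap (inf2 k a b) ≫ WX.in2 k a b) s = z := hs
      rw [h2]
      exact hz
    rw [mem_Uo] at h1
    apply h1
    change inf2 k a b (z2 k a b) ∈ s.asIdeal
    rw [inf2_z]
    exact zero_mem _
  · intro hz
    by_contra hU
    rcases glue2_surj (spMap (g1 k a b)) (spMap (g2 k a b)) z with ⟨x, hx⟩ | ⟨y, hy⟩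
    · exact hU ⟨x, hx⟩
    · have hy' : WX.in2 k a b y = z := hy
      rw [← hy', mem_Uo, not_not] at hU
      apply hz
      let s : Sp k := (⊥ : PrimeSpectrum k)
      refine ⟨s, ?_⟩
      change (spMap (inf2 k a b) ≫ WX.in2 k a b) s = z
      rw [Scheme.Hom.comp_apply, ← hy']
      congr 1
      refine PrimeSpectrum.ext (Ideal.ext fun v => ?_)
      have hv := (t_WRG k a b).2.1 v
      have hv' : v - algebraMap k _ (inf2 k a b v) ∈ y.asIdeal :=
        (Ideal.span_singleton_le_iff_mem _).mpr hU hv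
      change inf2 k a b v ∈ (⊥ : Ideal k) ↔ v ∈ y.asIdeal
      rw [Ideal.mem_bot]
      constructor
      · intro h
        rw [h, map_zero, sub_zero] at hv'
        exact hv'
      · intro h
        by_contra h0
        have h2 : algebraMap k (A2 k a b) (inf2 k a b v) ∈ y.asIdeal := by
          have h3 := sub_mem h hv'
          rwa [sub_sub_cancel] at h3
        have h4 : IsUnit (algebraMap k (A2 k a b) (inf2 k a b v)) :=
          (isUnit_iff_ne_zero.mpr h0).map _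
        exact y.2.ne_top (Ideal.eq_top_of_isUnit_mem _ h2 h4)

/-- Functions on the chart at infinity. -/
theorem gm2_bij : Function.Bijective (gm (WX.in2 k a b) (Vo a b) (hV a b)) :=
  gm_bij (WX.in2 k a b) (Vo a b) (hV a b) rfl

/-- The coordinate. -/
noncomputable def tt : Γ(WX k a b, Vo a b) := (gm2_bij a b).2 (z2 k a b) |>.choose

theorem gm2_tt : gm (WX.in2 k a b) (Vo a b) (hV a b) (tt a b) = z2 k a b :=
  ((gm2_bij a b).2 (z2 k a b)).choose_spec

theorem le0 : ⊤ ≤ ((Wei (WZ a b)).σ 0) ⁻¹ᵁ (Vo a b) := by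
  intro s _
  refine ⟨spMap (inf2 k a b) s, ?_⟩
  rw [← Scheme.Hom.comp_apply]
  rfl

theorem gm0 (r : Γ(WX k a b, Vo a b)) :
    gm ((Wei (WZ a b)).σ 0) (Vo a b) (le0 a b) r =
      inf2 k a b (gm (WX.in2 k a b) (Vo a b) (hV a b) r) :=
  gm_comp (WX.in2 k a b) (inf2 k a b) ((Wei (WZ a b)).σ 0) (sig a b) (Vo a b) (hV a b)
    (le0 a b) r

theorem gm2_coef (c : k) : gm (WX.in2 k a b) (Vo a b) (hV a b)
    (coef (WX.pr k a b) (Vo a b) c) = algebraMap k _ c :=
  gm_coef (WX.in2 k a b) (WX.pr k a b) (algebraMap k _) (WX.in2_pr k a b) (Vo a b) (hV a b) c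

theorem basic_tt : (WX k a b).basicOpen (tt a b) = Uo a b ⊓ Vo a b := by
  have h1 := Scheme.basicOpen_appLE (WX.in2 k a b) ⊤ (Vo a b) (hV a b) (tt a b)
  have h2 := basicOpen_eq_of_affine' (((WX.in2 k a b).appLE (Vo a b) ⊤ (hV a b)).hom (tt a b))
  have h3 : (Scheme.ΓSpecIso (CommRingCat.of (A2 k a b))).hom
      (((WX.in2 k a b).appLE (Vo a b) ⊤ (hV a b)).hom (tt a b)) = z2 k a b := gm2_tt a b
  have key : ∀ y : Sp (A2 k a b), WX.in2 k a b y ∈ (WX k a b).basicOpen (tt a b) ↔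
      z2 k a b ∉ y.asIdeal := by
    intro y
    have h4 : y ∈ (Sp (A2 k a b)).basicOpen
        (((WX.in2 k a b).appLE (Vo a b) ⊤ (hV a b)).hom (tt a b)) ↔
        WX.in2 k a b y ∈ (WX k a b).basicOpen (tt a b) := by
      constructor
      · intro h
        exact ((SetLike.ext_iff.mp h1 y).mp h).2
      · intro h
        exact (SetLike.ext_iff.mp h1 y).mpr ⟨trivial, h⟩
    rw [← h4]
    constructor
    · intro h
      have h5 := (SetLike.ext_iff.mp h2 y).mp h
      change _ ∉ y.asIdeal at h5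
      rw [h3] at h5
      exact h5
    · intro h
      refine (SetLike.ext_iff.mp h2 y).mpr ?_
      change _ ∉ y.asIdeal
      rw [h3]
      exact h
  ext z
  constructor
  · intro hz
    obtain ⟨y, rfl⟩ := (WX k a b).basicOpen_le (tt a b) hz
    exact ⟨(mem_Uo a b y).2 ((key y).1 hz), ⟨y, rfl⟩⟩
  · rintro ⟨h5, ⟨y, rfl⟩⟩
    exact (key y).2 ((mem_Uo a b y).1 h5)

theorem ker_tt (r : Γ(WX k a b, Vo a b)) :
    gm ((Wei (WZ a b)).σ 0) (Vo a b) (le0 a b) r = 0 ↔ ∃ s, r = tt a b * s := by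
  rw [gm0, inf2_eq_zero_iff]
  constructor
  · rintro ⟨s, hs⟩
    obtain ⟨s', rfl⟩ := (gm2_bij a b).2 s
    refine ⟨s', (gm2_bij a b).1 ?_⟩
    rw [map_mul, gm2_tt, hs]
  · rintro ⟨s, rfl⟩
    exact ⟨_, by rw [map_mul, gm2_tt]⟩

theorem flat_tt : (Polynomial.eval₂RingHom (coef (WX.pr k a b) (Vo a b)) (tt a b)).Flat := by
  let e := RingEquiv.ofBijective _ (gm2_bij a b)
  have h1 : (e : Γ(WX k a b, Vo a b) →+* A2 k a b).comp
      (Polynomial.eval₂RingHom (coef (WX.pr k a b) (Vo a b)) (tt a b)) = pz a b := by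
    refine Polynomial.ringHom_ext ?_ ?_
    · intro c
      rw [RingHom.comp_apply, Polynomial.coe_eval₂RingHom, Polynomial.eval₂_C, pz,
        Polynomial.coe_eval₂RingHom, Polynomial.eval₂_C]
      exact gm2_coef a b c
    · rw [RingHom.comp_apply, Polynomial.coe_eval₂RingHom, Polynomial.eval₂_X, pz,
        Polynomial.coe_eval₂RingHom, Polynomial.eval₂_X]
      exact gm2_tt a b
  have h2 : Polynomial.eval₂RingHom (coef (WX.pr k a b) (Vo a b)) (tt a b) =
      (e.symm : A2 k a b →+* Γ(WX k a b, Vo a b)).comp (pz a b) := by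
    rw [← h1]
    refine RingHom.ext fun x => ?_
    exact (e.symm_apply_apply _).symm
  rw [h2]
  exact RingHom.Flat.comp (pz_flat a b) (RingHom.Flat.of_bijective e.symm.bijective)

/-- The coordinate `z`. -/
noncomputable def lc : LC (Wei (WZ a b)) where
  U := Uo a b
  mU := mem_Uo_iff a b
  V := Vo a b
  aff := isAffineOpen_opensRange (WX.in2 k a b)
  le := le0 a b
  t := tt a b
  bas := basic_tt a b
  ker := ker_tt a b
  flat := flat_tt a b

end geo

end FLW

theorem t_FLW : Stmt_FLW := by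
  intro k _ a b
  refine ⟨FLW.lc a b, FLW.hU a b, rfl, ?_⟩
  intro n c X hX
  obtain ⟨r, hr0⟩ := hX
  let X' : Γ(WX k a b, FLW.Uo a b) := X
  let r' : Γ(WX k a b, FLW.Vo a b) := r
  have hr : rs (WX k a b) (inf_le_right : FLW.Uo a b ⊓ FLW.Vo a b ≤ FLW.Vo a b) (FLW.tt a b) ^ n *
      rs (WX k a b) (inf_le_left : FLW.Uo a b ⊓ FLW.Vo a b ≤ FLW.Uo a b) X' =
      rs (WX k a b) (inf_le_right : FLW.Uo a b ⊓ FLW.Vo a b ≤ FLW.Vo a b)
        (coef (WX.pr k a b) (FLW.Vo a b) c + FLW.tt a b * r') := hr0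
  let i12 : Sp (A12 k a b) ⟶ WX k a b := spMap (g2 k a b) ≫ WX.in2 k a b
  have hi1 : i12 = spMap (g1 k a b) ≫ WX.in1 k a b :=
    (pushout.condition (f := spMap (g1 k a b)) (g := spMap (g2 k a b))).symm
  have hle : ⊤ ≤ i12 ⁻¹ᵁ (FLW.Uo a b ⊓ FLW.Vo a b) := by
    intro w _
    refine ⟨⟨spMap (g1 k a b) w, ?_⟩, ⟨spMap (g2 k a b) w, ?_⟩⟩
    · rw [FLW.cond, ← Scheme.Hom.comp_apply]
    · rw [← Scheme.Hom.comp_apply]
  have e1 : ∀ v : Γ(WX k a b, FLW.Uo a b), gm i12 (FLW.Uo a b ⊓ FLW.Vo a b) hle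
      (rs (WX k a b) inf_le_left v) = g1 k a b (gm (WX.in1 k a b) (FLW.Uo a b) (FLW.hU a b) v) :=
    fun v => gm_rs (WX.in1 k a b) (g1 k a b) i12 hi1 inf_le_left (FLW.hU a b) hle v
  have e2 : ∀ v : Γ(WX k a b, FLW.Vo a b), gm i12 (FLW.Uo a b ⊓ FLW.Vo a b) hle
      (rs (WX k a b) inf_le_right v) = g2 k a b (gm (WX.in2 k a b) (FLW.Vo a b) (FLW.hV a b) v) :=
    fun v => gm_rs (WX.in2 k a b) (g2 k a b) i12 rfl inf_le_right (FLW.hV a b) hle v
  have h1 := congrArg (gm i12 (FLW.Uo a b ⊓ FLW.Vo a b) hle) hr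
  rw [map_mul, map_pow] at h1
  have h2 : gm i12 (FLW.Uo a b ⊓ FLW.Vo a b) hle (rs (WX k a b) inf_le_right (FLW.tt a b)) =
      (zu k a b).val := by
    rw [e2, FLW.gm2_tt, zu_val]
  refine ⟨gm (WX.in2 k a b) (FLW.Vo a b) (FLW.hV a b)
    (coef (WX.pr k a b) (FLW.Vo a b) c + FLW.tt a b * r'), ?_, ?_⟩
  · change (zu k a b).val ^ n *
      g1 k a b (gm (WX.in1 k a b) (FLW.Uo a b) (FLW.hU a b) X') = _
    rw [← e2, ← h2, ← e1]
    exact h1
  · rw [map_add, map_mul, map_add, map_mul, FLW.gm2_tt, FLW.gm2_coef, FLW.inf2_z, zero_mul,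
      add_zero, FLW.inf2_b]

end Pool.Agent.MG.WL
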