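import Pool.Agent.MG.WL.FIN.Stmts
import Pool.Agent.MG.TwoProper

/-!
# The morphism to the affine line given by a function with a pole along the section is proper
-/

open CategoryTheory CategoryTheory.Limits AlgebraicGeometry TensorProduct IsLocalRing

namespace Pool.Agent.MG.WL

open Pool.Agent.MG.W Pool.Agent.MG.One Pool.Agent.MG.GLU

namespace FPR

variable {A : Type} [CommRing A] {C : Fam 1 A}

theorem xm_comp (L : LC C) (x : Γ(C.X, L.U)) :
    xm L x ≫ spMap (Polynomial.C : A →+* Polynomial A) = L.U.ι ≫ C.π := by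
  have h1 : CommRingCat.ofHom (Polynomial.C : A →+* Polynomial A) ≫
      CommRingCat.ofHom (Polynomial.eval₂RingHom (coef C.π L.U) x) =
      (Scheme.ΓSpecIso (.of A)).inv ≫ C.π.appTop ≫ C.X.presheaf.map (homOfLE le_top).op := by
    ext a
    simp only [CommRingCat.hom_comp, CommRingCat.hom_ofHom, RingHom.comp_apply,
      Polynomial.coe_eval₂RingHom, Polynomial.eval₂_C]
    rfl
  rw [xm, Category.assoc, spMap, spMap, ← Spec.map_comp, h1, Spec.map_comp, Spec.map_comp,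
    Category.assoc, Scheme.Opens.toSpecΓ_SpecMap_presheaf_map_top_assoc,
    ← Scheme.toSpecΓ_naturality_assoc, ← SpecMap_ΓSpecIso_hom, ← Spec.map_comp]
  simp

theorem xm_appTop (L : LC C) (x : Γ(C.X, L.U)) :
    (xm L x).appTop = (Scheme.ΓSpecIso (.of (Polynomial A))).hom ≫
      CommRingCat.ofHom (Polynomial.eval₂RingHom (coef C.π L.U) x) ≫ L.U.topIso.inv := by
  rw [xm, Scheme.Hom.comp_appTop, Scheme.Opens.toSpecΓ_appTop, Scheme.ΓSpecIso_naturality_assoc]

/-- The function `x` on a point of `U`. -/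
theorem gm_xm {B : Type} [CommRing B] (L : LC C) (x : Γ(C.X, L.U)) (m : Sp B ⟶ L.U)
    (χ : Polynomial A →+* B) (h : m ≫ xm L x = spMap χ) (hU : ⊤ ≤ (m ≫ L.U.ι) ⁻¹ᵁ L.U) :
    gm (m ≫ L.U.ι) L.U hU x = χ Polynomial.X := by
  have e1 : (⊤ : (L.U : Scheme.{0}).Opens) ≤ L.U.ι ⁻¹ᵁ L.U := by
    rw [Scheme.Opens.ι_preimage_self]
  have h2 := Scheme.Hom.appLE_comp_appLE (U := L.U) (V := ⊤) (W := ⊤) (f := m)
    (g := L.U.ι) (e₁ := e1) (e₂ := le_top)
  have h3 : m.appLE ⊤ ⊤ le_top = m.appTop := Scheme.Hom.appLE_eq_app m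
  have h4 : L.U.ι.appLE L.U ⊤ e1 = L.U.topIso.inv := by
    rw [Scheme.Opens.ι_appLE, Scheme.Opens.topIso_inv]; rfl
  have h5 : (Scheme.ΓSpecIso (.of (Polynomial A))).hom
      ((Scheme.ΓSpecIso (.of (Polynomial A))).inv Polynomial.X) = Polynomial.X := by
    simp
  have h6 : Polynomial.eval₂RingHom (coef C.π L.U) x Polynomial.X = x := by
    simp
  have h7 : ((m ≫ L.U.ι).appLE L.U ⊤ hU).hom x =
      (m ≫ xm L x).appTop ((Scheme.ΓSpecIso (.of (Polynomial A))).inv Polynomial.X) := by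
    rw [Scheme.Hom.comp_appTop, xm_appTop, ← h2, h3, h4]
    change m.appTop (L.U.topIso.inv x) = m.appTop (L.U.topIso.inv
      (Polynomial.eval₂RingHom (coef C.π L.U) x ((Scheme.ΓSpecIso (.of (Polynomial A))).hom
        ((Scheme.ΓSpecIso (.of (Polynomial A))).inv Polynomial.X))))
    rw [h5, h6]
  change (Scheme.ΓSpecIso (CommRingCat.of B)).hom.hom (((m ≫ L.U.ι).appLE L.U ⊤ hU).hom x) = _
  rw [h7, h]
  change (Scheme.ΓSpecIso (CommRingCat.of B)).hom.hom ((spMap χ).appTop.hom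
    ((Scheme.ΓSpecIso (.of (Polynomial A))).inv Polynomial.X)) = _
  rw [gs_spMap]
  exact congrArg χ h5

theorem compact_U (hp : IsProper C.π) (L : LC C) : IsCompact (L.U : Set C.X) := by
  have hX : CompactSpace C.X := QuasiCompact.compactSpace_of_compactSpace C.π
  have hV : IsCompact ((L.V : Set C.X)ᶜ) := L.V.isOpen.isClosed_compl.isCompact
  have hsub : ((L.V : Set C.X)ᶜ) ⊆ (L.U : Set C.X) := by
    intro z hz
    refine (L.mU z).2 ?_
    rintro ⟨p, rfl⟩
    exact hz (L.le (TopologicalSpace.Opens.mem_top p))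
  obtain ⟨W, hW, -, hVW, hWU⟩ :=
    PrespectralSpace.exists_isCompact_and_isOpen_between hV L.U.isOpen hsub
  have hB : IsCompact ((L.U ⊓ L.V : C.X.Opens) : Set C.X) := by
    rw [← L.bas]
    exact isCompact_basicOpen C.X L.aff.isCompact L.t
  have : (L.U : Set C.X) = W ∪ ((L.U ⊓ L.V : C.X.Opens) : Set C.X) := by
    ext z
    constructor
    · intro hz
      by_cases hzV : z ∈ L.V
      · exact Or.inr ⟨hz, hzV⟩
      · exact Or.inl (hVW hzV)
    · rintro (hz | hz)
      · exact hWU hz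
      · exact hz.1
  rw [this]
  exact hW.union hB

/-- The closed point does not go to the section. -/
theorem closed_mem (L : LC C) (n : ℕ) (x : Γ(C.X, L.U)) (hx : L.Pole (n + 1) 1 x)
    {R K : Type} [CommRing R] [IsLocalRing R] [Field K] [Algebra R K]
    (hinj : Function.Injective (algebraMap R K)) (l : Sp R ⟶ C.X) (i₁ : Sp K ⟶ L.U)
    (ψ : Polynomial A →+* R) (h1 : spMap (algebraMap R K) ≫ l = i₁ ≫ L.U.ι)
    (h2 : i₁ ≫ xm L x = spMap (algebraMap R K) ≫ spMap ψ) : l (closedPoint R) ∈ L.U := by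
  by_contra hcon
  have hV0 : l (closedPoint R) ∈ L.V := by
    by_contra hc
    have h3 := (L.mU (l (closedPoint R))).2
    apply hcon
    apply h3
    rintro ⟨p, hp⟩
    apply hc
    rw [← hp]
    exact L.le (TopologicalSpace.Opens.mem_top p)
  have hV : (⊤ : (Sp R).Opens) ≤ l ⁻¹ᵁ L.V := fun y _ =>
    Two.forall_mem_of_closedPoint_mem l _ hV0 y
  -- the image of the point over `K`
  have hUi : (⊤ : (Sp K).Opens) ≤ (i₁ ≫ L.U.ι) ⁻¹ᵁ L.U := by
    intro y _
    exact (i₁ y).2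
  have hVi : (⊤ : (Sp K).Opens) ≤ (i₁ ≫ L.U.ι) ⁻¹ᵁ L.V := by
    rw [← h1]
    intro y _
    exact hV (TopologicalSpace.Opens.mem_top _)
  have hUVi : (⊤ : (Sp K).Opens) ≤ (i₁ ≫ L.U.ι) ⁻¹ᵁ (L.U ⊓ L.V) := fun y hy =>
    ⟨hUi hy, hVi hy⟩
  set alg := algebraMap R K with halg
  have hχ : i₁ ≫ xm L x = spMap (alg.comp ψ) := by
    rw [h2, spMap, spMap, spMap, ← Spec.map_comp]
    rfl
  have gx := gm_xm L x i₁ (alg.comp ψ) hχ hUi
  have idc : i₁ ≫ L.U.ι = spMap (RingHom.id K) ≫ i₁ ≫ L.U.ι := by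
    have : spMap (RingHom.id K) = 𝟙 (Sp K) := Spec.map_id _
    rw [this, Category.id_comp]
  have g1 : ∀ v : Γ(C.X, L.V), gm (i₁ ≫ L.U.ι) (L.U ⊓ L.V) hUVi (rs C.X inf_le_right v) =
      alg (gm l L.V hV v) := fun v => gm_rs l alg (i₁ ≫ L.U.ι) h1.symm inf_le_right hV hUVi v
  have g2 : gm (i₁ ≫ L.U.ι) (L.U ⊓ L.V) hUVi (rs C.X inf_le_left x) = alg (ψ Polynomial.X) := by
    rw [gm_rs (i₁ ≫ L.U.ι) (RingHom.id K) (i₁ ≫ L.U.ι) idc inf_le_left hUi hUVi x, gx]
    rfl
  obtain ⟨r, hr⟩ := hx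
  have e1 := congrArg (gm (i₁ ≫ L.U.ι) (L.U ⊓ L.V) hUVi) hr
  rw [map_mul, map_pow, g1, g2, g1, map_one, map_add, map_one, map_mul, ← map_pow, ← map_mul] at e1
  have e2 := hinj e1
  -- the coordinate is not a unit
  have hτ : ¬ IsUnit (gm l L.V hV L.t) := by
    intro hu
    have hbo := Scheme.basicOpen_appLE l ⊤ L.V hV L.t
    have hu' : IsUnit ((l.appLE L.V ⊤ hV).hom L.t) := by
      have h5 := hu.map (Scheme.ΓSpecIso (CommRingCat.of R)).inv.hom
      have h6 : (Scheme.ΓSpecIso (CommRingCat.of R)).inv.hom (gm l L.V hV L.t) =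
          (l.appLE L.V ⊤ hV).hom L.t := by
        change ((Scheme.ΓSpecIso (CommRingCat.of R)).hom ≫
          (Scheme.ΓSpecIso (CommRingCat.of R)).inv) ((l.appLE L.V ⊤ hV).hom L.t) = _
        rw [Iso.hom_inv_id]
        rfl
      rwa [h6] at h5
    have hbo' : (Sp R).basicOpen ((l.appLE L.V ⊤ hV).hom L.t) = ⊤ := by
      simpa using Scheme.basicOpen_of_isUnit _ hu'
    have hmem : closedPoint R ∈ (Sp R).basicOpen ((l.appLE L.V ⊤ hV).hom L.t) := by
      rw [hbo']
      exact TopologicalSpace.Opens.mem_top _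
    rw [hbo] at hmem
    have hmem2 : l (closedPoint R) ∈ C.X.basicOpen L.t := hmem.2
    rw [L.bas] at hmem2
    exact hcon hmem2.1
  apply hτ
  refine IsUnit.of_mul_eq_one
    (gm l L.V hV L.t ^ n * ψ Polynomial.X - gm l L.V hV r) ?_
  have e3 : gm l L.V hV L.t ^ (n + 1) * ψ Polynomial.X = 1 + gm l L.V hV L.t * gm l L.V hV r := e2
  rw [pow_succ] at e3
  linear_combination e3

theorem existence (hp : IsProper C.π) (L : LC C) (n : ℕ) (x : Γ(C.X, L.U))
    (hx : L.Pole (n + 1) 1 x) : ValuativeCriterion.Existence (xm L x) := by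
  have hπ : ValuativeCriterion.Existence C.π := by
    have : UniversallyClosed C.π := inferInstance
    rw [UniversallyClosed.eq_valuativeCriterion] at this
    exact this.1
  intro S
  have hsq : CommSq (S.i₁ ≫ L.U.ι) (Spec.map (CommRingCat.ofHom (algebraMap S.R S.K))) C.π
      (S.i₂ ≫ spMap (Polynomial.C : A →+* Polynomial A)) := ⟨by
    rw [Category.assoc, ← xm_comp L x, ← Category.assoc, S.commSq.w, Category.assoc]⟩
  obtain ⟨⟨l, hl1, hl2⟩⟩ := hπ { R := S.R, K := S.K, commSq := hsq, .. }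
  obtain ⟨ψ, hψ⟩ := Spec.map_surjective S.i₂
  have hmem : ∀ y, l y ∈ L.U := by
    refine Two.forall_mem_of_closedPoint_mem l _ ?_
    refine closed_mem L n x hx (IsFractionRing.injective S.R S.K) l S.i₁ ψ.hom hl1 ?_
    rw [S.commSq.w, ← hψ]
    rfl
  have hr : Set.range l ⊆ Set.range L.U.ι := by
    rintro _ ⟨y, rfl⟩
    rw [Scheme.Opens.range_ι]
    exact hmem y
  have hfst : Spec.map (CommRingCat.ofHom (algebraMap S.R S.K)) ≫
      IsOpenImmersion.lift L.U.ι l hr = S.i₁ := by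
    rw [← cancel_mono L.U.ι, Category.assoc, IsOpenImmersion.lift_fac, hl1]
  refine ⟨⟨IsOpenImmersion.lift L.U.ι l hr, hfst, ?_⟩⟩
  apply Two.cancel_Spec_map (IsFractionRing.injective S.R S.K)
  rw [← Category.assoc, hfst]
  exact S.commSq.w

end FPR

open FPR in
theorem t_FPR : Stmt_FPR := by
  intro A _ C hp L n x hx
  have := hp
  have hc := xm_comp L x
  have h1 : LocallyOfFiniteType (xm L x ≫ spMap (Polynomial.C : A →+* Polynomial A)) := by
    rw [hc]; infer_instance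
  have h3 : IsSeparated (xm L x ≫ spMap (Polynomial.C : A →+* Polynomial A)) := by
    rw [hc]; infer_instance
  have h4 : LocallyOfFiniteType (xm L x) := locallyOfFiniteType_of_comp _
    (spMap (Polynomial.C : A →+* Polynomial A))
  have h6 : IsSeparated (xm L x) := IsSeparated.of_comp _
    (spMap (Polynomial.C : A →+* Polynomial A))
  have h5 : QuasiCompact (xm L x) :=
    (HasAffineProperty.iff_of_isAffine (P := @QuasiCompact) (f := xm L x)).2
      (isCompact_iff_compactSpace.1 (compact_U hp L))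
  have h7 : UniversallyClosed (xm L x) := UniversallyClosed.of_valuativeCriterion _
    (existence hp L n x hx)
  exact { }

end Pool.Agent.MG.WL
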