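import Pool.Agent.MG.WL.FIN.Stmts
import Pool.Agent.MG.W.WRG

/-!
# FQF: a function with a pole at the section is quasi-finite over the affine line
-/

open CategoryTheory CategoryTheory.Limits AlgebraicGeometry TensorProduct

namespace Pool.Agent.MG.WL

open Pool.Agent.MG.W Pool.Agent.MG.One Pool.Agent.MG.GLU

namespace FQF

/-! ### The points of the affine chart with given `x` -/

theorem finite_quot {K R : Type} [Field K] [CommRing R] [Algebra K R] (x y : R)
    (hgen : ∀ v : R, ∃ p q : Polynomial K, v = Polynomial.aeval x p + Polynomial.aeval x q * y)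
    (d : K) (I : Ideal R) (hI : x - algebraMap K R d ∈ I) : Module.Finite K (R ⧸ I) := by
  classical
  have hx : Ideal.Quotient.mk I x = algebraMap K (R ⧸ I) d := by
    have h := Ideal.Quotient.eq_zero_iff_mem.2 hI
    rw [map_sub, sub_eq_zero] at h
    exact h
  have hmk : (Ideal.Quotient.mk I).comp (algebraMap K R) = algebraMap K (R ⧸ I) := rfl
  have hp : ∀ p : Polynomial K, Ideal.Quotient.mk I (Polynomial.aeval x p) =
      algebraMap K (R ⧸ I) (p.eval d) := by
    intro p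
    rw [Polynomial.aeval_def, Polynomial.hom_eval₂, hmk, hx, Polynomial.eval₂_at_apply]
  refine ⟨⟨{1, Ideal.Quotient.mk I y}, ?_⟩⟩
  rw [eq_top_iff]
  rintro w -
  obtain ⟨v, rfl⟩ := Ideal.Quotient.mk_surjective w
  obtain ⟨p, q, hv⟩ := hgen v
  have e : Ideal.Quotient.mk I v = p.eval d • (1 : R ⧸ I) +
      q.eval d • Ideal.Quotient.mk I y := by
    rw [hv, map_add, map_mul, hp, hp, Algebra.smul_def, Algebra.smul_def, mul_one]
  rw [e]
  simp only [Finset.coe_insert, Finset.coe_singleton]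
  exact Submodule.add_mem _
    (Submodule.smul_mem _ _ (Submodule.subset_span (Set.mem_insert _ _)))
    (Submodule.smul_mem _ _ (Submodule.subset_span (Set.mem_insert_of_mem _ rfl)))

/-- The points where `α x + β = c` are finitely many. -/
theorem finite_locus {K R : Type} [Field K] [CommRing R] [Algebra K R] (x y : R)
    (hgen : ∀ v : R, ∃ p q : Polynomial K, v = Polynomial.aeval x p + Polynomial.aeval x q * y)
    (α β c : K) (hα : α ≠ 0) :
    (PrimeSpectrum.zeroLocus ({algebraMap K R α * x + algebraMap K R β -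
      algebraMap K R c} : Set R)).Finite := by
  set z : R := algebraMap K R α * x + algebraMap K R β - algebraMap K R c with hz
  have hI : x - algebraMap K R ((c - β) / α) ∈ Ideal.span {z} := by
    have e2 : algebraMap K R α * algebraMap K R α⁻¹ = 1 := by
      rw [← map_mul, mul_inv_cancel₀ hα, map_one]
    have e : x - algebraMap K R ((c - β) / α) = algebraMap K R α⁻¹ * z := by
      rw [hz, div_eq_mul_inv, map_mul, map_sub]
      linear_combination - x * e2
    rw [e]
    exact Ideal.mul_mem_left _ _ (Ideal.mem_span_singleton_self z)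
  have hfin := finite_quot x y hgen _ _ hI
  have hart : IsArtinianRing (R ⧸ Ideal.span {z}) := IsArtinianRing.of_finite K _
  have h1 : PrimeSpectrum.zeroLocus ({z} : Set R) =
      Set.range (PrimeSpectrum.comap (Ideal.Quotient.mk (Ideal.span {z}))) := by
    rw [range_comap_of_surjective _ _ Ideal.Quotient.mk_surjective,
      Ideal.mk_ker, PrimeSpectrum.zeroLocus_span]
  rw [h1]
  exact Set.finite_range _

theorem finite_pts {K : Type} [Field K] (a b α β c : K) (hα : α ≠ 0) :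
    (PrimeSpectrum.zeroLocus ({algebraMap K (A1 K a b) α * x1 K a b + algebraMap K _ β -
      algebraMap K _ c} : Set (A1 K a b))).Finite :=
  finite_locus (x1 K a b) (y1 K a b) (fun v => by
    obtain ⟨⟨p, q⟩, hv, -⟩ := (t_WRG K a b).1 v
    exact ⟨p, q, hv⟩) α β c hα

/-! ### The morphism to the affine line -/

section

variable {A : Type} [CommRing A] {C : Fam 1 A} (L : LC C) (x : Γ(C.X, L.U))

theorem xm_C : xm L x ≫ spMap (Polynomial.C : A →+* Polynomial A) = L.U.ι ≫ C.π := by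
  have h1 : CommRingCat.ofHom (Polynomial.C : A →+* Polynomial A) ≫
      CommRingCat.ofHom (Polynomial.eval₂RingHom (coef C.π L.U) x) =
      (Scheme.ΓSpecIso (.of A)).inv ≫ C.π.appTop ≫ C.X.presheaf.map (homOfLE le_top).op := by
    ext a
    exact Polynomial.eval₂_C _ _
  rw [xm, Category.assoc, ← Spec.map_comp, h1, Spec.map_comp, Spec.map_comp,
    Category.assoc, Scheme.Opens.toSpecΓ_SpecMap_presheaf_map_top_assoc,
    ← Scheme.toSpecΓ_naturality_assoc, ← SpecMap_ΓSpecIso_hom, ← Spec.map_comp]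
  simp

theorem lft (h : IsProper C.π) : LocallyOfFiniteType (xm L x) := by
  have h1 : LocallyOfFiniteType (xm L x ≫ spMap (Polynomial.C : A →+* Polynomial A)) := by
    rw [xm_C]
    have : LocallyOfFiniteType C.π := inferInstance
    infer_instance
  exact locallyOfFiniteType_of_comp (xm L x) (spMap (Polynomial.C : A →+* Polynomial A))

theorem le_of {R : Type} [CommRing R] (m : Sp R ⟶ (L.U : Scheme.{0})) :
    ⊤ ≤ (m ≫ L.U.ι) ⁻¹ᵁ L.U := fun p _ => (m p).2

theorem comp_toSpec {X : Scheme.{0}} (U : X.Opens) {R : Type} [CommRing R]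
    (m : Sp R ⟶ (U : Scheme.{0})) (h : ⊤ ≤ (m ≫ U.ι) ⁻¹ᵁ U) :
    m ≫ U.toSpecΓ = spMap (gm (m ≫ U.ι) U h) := by
  have e1 : (⊤ : (U : Scheme.{0}).Opens) ≤ U.ι ⁻¹ᵁ U := by
    rw [Scheme.Opens.ι_preimage_self]
  have h2 := Scheme.Hom.appLE_comp_appLE (U := U) (V := ⊤) (W := ⊤) (f := m)
    (g := U.ι) (e₁ := e1) (e₂ := le_top)
  have h3 : m.appLE ⊤ ⊤ le_top = m.appTop := Scheme.Hom.appLE_eq_app m
  have h4 : U.ι.appLE U ⊤ e1 = U.topIso.inv := by
    rw [Scheme.Opens.ι_appLE, Scheme.Opens.topIso_inv]; rfl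
  have h5 : CommRingCat.ofHom (gm (m ≫ U.ι) U h) =
      U.topIso.inv ≫ m.appTop ≫ (Scheme.ΓSpecIso (CommRingCat.of R)).hom := by
    rw [← h4, ← h3, ← Category.assoc, h2]
    rfl
  change _ = Spec.map (CommRingCat.ofHom (gm (m ≫ U.ι) U h))
  rw [h5, Spec.map_comp, Spec.map_comp, Scheme.Opens.toSpecΓ, ← Category.assoc,
    Scheme.toSpecΓ_naturality, SpecMap_ΓSpecIso_hom]

theorem comp_xm {R : Type} [CommRing R] (m : Sp R ⟶ (L.U : Scheme.{0})) :
    m ≫ xm L x = spMap ((gm (m ≫ L.U.ι) L.U (le_of L m)).comp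
      (Polynomial.eval₂RingHom (coef C.π L.U) x)) := by
  rw [xm, ← Category.assoc, comp_toSpec]
  exact (Spec.map_comp _ _).symm

theorem finite_fib (y : Γ(C.X, L.U)) (hG : AllGF L x y) (P : Sp (Polynomial A)) :
    (xm L x ⁻¹' {P}).Finite := by
  -- the geometric point
  let P' : PrimeSpectrum (Polynomial A) := P
  let K := AlgebraicClosure P'.asIdeal.ResidueField
  let θ : Polynomial A →+* K := algebraMap (Polynomial A) K
  have hθ : ∀ o : Sp K, spMap θ o = P := by
    intro o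
    apply PrimeSpectrum.ext
    change Ideal.comap θ (o : PrimeSpectrum K).asIdeal = P'.asIdeal
    have h1 : (o : PrimeSpectrum K).asIdeal = ⊥ :=
      (Ideal.eq_bot_or_top _).resolve_right (o : PrimeSpectrum K).isPrime.ne_top
    have h2 : θ = (algebraMap P'.asIdeal.ResidueField K).comp
        (algebraMap (Polynomial A) P'.asIdeal.ResidueField) :=
      IsScalarTower.algebraMap_eq _ _ _
    have h3 : RingHom.ker θ = P'.asIdeal := by
      refine Eq.trans ?_ (Ideal.ker_algebraMap_residueField P'.asIdeal)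
      rw [h2]
      ext p
      rw [RingHom.mem_ker, RingHom.mem_ker, RingHom.comp_apply, map_eq_zero]
    rw [h1]
    exact h3
  obtain ⟨G⟩ := hG K (θ.comp Polynomial.C)
  let Z := PrimeSpectrum.zeroLocus ({algebraMap K (A1 K G.a G.b) G.α * x1 K G.a G.b +
    algebraMap K _ G.β - algebraMap K _ (θ Polynomial.X)} : Set (A1 K G.a G.b))
  have hZ : Z.Finite := finite_pts G.a G.b G.α G.β (θ Polynomial.X) G.hα
  refine Set.Finite.of_finite_image (f := L.U.ι) ?_ L.U.ι.isOpenEmbedding.injective.injOn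
  refine (hZ.image (fun v : Sp (A1 K G.a G.b) => G.e.f (WX.in1 K G.a G.b v))).subset ?_
  rintro _ ⟨u, hu, rfl⟩
  have hu' : xm L x u = P := hu
  -- a common field
  obtain ⟨o⟩ : Nonempty (Sp K) := inferInstance
  obtain ⟨w, hw, -⟩ := Scheme.Pullback.exists_preimage_pullback (f := xm L x) (g := spMap θ) u o
    (hu'.trans (hθ o).symm)
  let F : Type := (pullback (xm L x) (spMap θ)).residueField w
  let i : Sp F ⟶ pullback (xm L x) (spMap θ) :=
    (pullback (xm L x) (spMap θ)).fromSpecResidueField w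
  let m : Sp F ⟶ (L.U : Scheme.{0}) := i ≫ pullback.fst _ _
  obtain ⟨ψ, hψ⟩ : ∃ ψ : K →+* F, spMap ψ = i ≫ pullback.snd _ _ :=
    ⟨(Spec.preimage (i ≫ pullback.snd _ _)).hom, Spec.map_preimage _⟩
  have h1 : m ≫ xm L x = spMap (ψ.comp θ) := by
    rw [Category.assoc, pullback.condition, ← Category.assoc, ← hψ]
    exact (Spec.map_comp _ _).symm
  have h3 : (gm (m ≫ L.U.ι) L.U (le_of L m)).comp
      (Polynomial.eval₂RingHom (coef C.π L.U) x) = ψ.comp θ :=
    congrArg CommRingCat.Hom.hom (Spec.map_injective ((comp_xm L x m).symm.trans h1))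
  have hx : gm (m ≫ L.U.ι) L.U (le_of L m) x = ψ (θ Polynomial.X) := by
    have := congrArg (fun f : Polynomial A →+* F => f Polynomial.X) h3
    simpa only [RingHom.comp_apply, Polynomial.coe_eval₂RingHom, Polynomial.eval₂_X] using this
  have h4 : (m ≫ L.U.ι) ≫ C.π = spMap ψ ≫ spMap (θ.comp Polynomial.C) := by
    rw [Category.assoc, ← xm_C L x, ← Category.assoc, h1]
    rw [← PBS.spMap_comp, ← PBS.spMap_comp]
  let ℓ := G.e.cart.lift (m ≫ L.U.ι) (spMap ψ) h4
  have hℓ : ℓ ≫ G.e.f = m ≫ L.U.ι := G.e.cart.lift_fst _ _ _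
  have hℓπ : ℓ ≫ (Wei (WZ G.a G.b)).π = spMap ψ := G.e.cart.lift_snd _ _ _
  have hr : Set.range ℓ ⊆ Set.range (WX.in1 K G.a G.b) := by
    rintro _ ⟨p, rfl⟩
    have h5 : ℓ p ∈ G.e.f ⁻¹ᵁ L.U := by
      change G.e.f (ℓ p) ∈ L.U
      have h6 : G.e.f (ℓ p) = (m ≫ L.U.ι) p := by rw [← Scheme.Hom.comp_apply, hℓ]
      rw [h6]
      exact (m p).2
    rw [G.rng] at h5
    exact h5
  let ℓ' : Sp F ⟶ Sp (A1 K G.a G.b) := IsOpenImmersion.lift (WX.in1 K G.a G.b) ℓ hr
  have hℓ' : ℓ' ≫ WX.in1 K G.a G.b = ℓ := IsOpenImmersion.lift_fac _ _ _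
  obtain ⟨h, hh⟩ : ∃ h : A1 K G.a G.b →+* F, spMap h = ℓ' :=
    ⟨(Spec.preimage ℓ').hom, Spec.map_preimage _⟩
  have h5 : m ≫ L.U.ι = spMap h ≫ (WX.in1 K G.a G.b ≫ G.e.f) := by
    rw [← hℓ, ← hℓ', ← hh]
    exact Category.assoc _ _ _
  have h6 : ∀ d : K, h (algebraMap K _ d) = ψ d := by
    have e1 : spMap (h.comp (algebraMap K (A1 K G.a G.b))) = spMap ψ := by
      rw [← hℓπ, ← hℓ', ← hh, PBS.spMap_comp, ← WX.in1_pr]
      exact (Category.assoc _ _ _).symm
    have e2 : h.comp (algebraMap K (A1 K G.a G.b)) = ψ :=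
      congrArg CommRingCat.Hom.hom (Spec.map_injective e1)
    exact fun d => congrArg (fun f : K →+* F => f d) e2
  have h7 := gm_comp (WX.in1 K G.a G.b ≫ G.e.f) h (m ≫ L.U.ι) h5 L.U G.le (le_of L m) x
  rw [G.hx, map_add, map_mul, h6, h6, hx] at h7
  obtain ⟨o'⟩ : Nonempty (Sp F) := inferInstance
  refine ⟨spMap h o', ?_, ?_⟩
  · refine (PrimeSpectrum.mem_zeroLocus _ _).2 (Set.singleton_subset_iff.2 ?_)
    change h _ ∈ (o' : PrimeSpectrum F).asIdeal
    rw [map_sub, map_add, map_mul, h6, h6, h6, ← h7, sub_self]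
    exact Ideal.zero_mem _
  · change G.e.f (WX.in1 K G.a G.b (spMap h o')) = L.U.ι u
    have e1 : G.e.f (WX.in1 K G.a G.b (spMap h o')) =
        (spMap h ≫ (WX.in1 K G.a G.b ≫ G.e.f)) o' := rfl
    rw [e1, ← h5, Scheme.Hom.comp_apply, Scheme.Hom.comp_apply]
    congr 1
    rw [← hw]
    congr 1
    exact Scheme.fromSpecResidueField_apply w o'

end

end FQF

theorem t_FQF : Stmt_FQF := by
  intro A _ C hC L x y hG
  have := FQF.lft L x hC
  exact LocallyQuasiFinite.of_finite_preimage_singleton _ (FQF.finite_fib L x y hG)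

end Pool.Agent.MG.WL
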