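import Pool.Agent.MG.WL.FIN.Stmts
import Pool.Agent.MG.W.WRG

/-!
# FSP: the functions on `U` are generated by `1` and `y` over `A[x]`
-/

set_option autoImplicit false

open CategoryTheory CategoryTheory.Limits AlgebraicGeometry TensorProduct

namespace Pool.Agent.MG.WL

open Pool.Agent.MG.W Pool.Agent.MG.One Pool.Agent.MG.GLU

namespace FSP

/-- A proper submodule of a finite module is contained in the kernel of a nonzero functional with
values in a residue field. -/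
theorem exists_functional {S R : Type} [CommRing S] [CommRing R] [Algebra S R]
    [Module.Finite S R] (N : Submodule S R) (hN : N ≠ ⊤) :
    ∃ (m : Ideal S) (_ : m.IsMaximal) (l : R →ₗ[S] (S ⧸ m)), (∀ r ∈ N, l r = 0) ∧
      ∃ r, l r ≠ 0 := by
  classical
  have hnt : Nontrivial (R ⧸ N) := Submodule.Quotient.nontrivial_iff.2 hN
  have hfin : Module.Finite S (R ⧸ N) := Module.Finite.of_surjective N.mkQ N.mkQ_surjective
  have hann : Module.annihilator S (R ⧸ N) ≠ ⊤ := by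
    intro h
    have h1 : (1 : S) ∈ Module.annihilator S (R ⧸ N) := by rw [h]; trivial
    obtain ⟨v, w, hvw⟩ := hnt.exists_pair_ne
    apply hvw
    have h2 := Module.mem_annihilator.1 h1
    rw [← one_smul S v, ← one_smul S w, h2 v, h2 w]
  obtain ⟨m, hm, hle⟩ := Ideal.exists_le_maximal _ hann
  have hne : (m • ⊤ : Submodule S (R ⧸ N)) ≠ ⊤ := by
    intro h
    obtain ⟨r, hr1, hr⟩ := Submodule.exists_sub_one_mem_and_smul_eq_zero_of_fg_of_le_smul m
      (⊤ : Submodule S (R ⧸ N)) hfin.fg_top h.ge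
    have h3 : r ∈ m := hle (Module.mem_annihilator.2 fun v => hr v trivial)
    apply hm.ne_top
    rw [Ideal.eq_top_iff_one]
    have h4 := m.sub_mem h3 hr1
    rwa [sub_sub_cancel] at h4
  obtain ⟨v, hv⟩ : ∃ v : R ⧸ N, v ∉ (m • ⊤ : Submodule S (R ⧸ N)) := by
    by_contra hc
    push Not at hc
    exact hne (eq_top_iff.2 fun v _ => hc v)
  let _ := Ideal.Quotient.field m
  have hv' : ((m • ⊤ : Submodule S (R ⧸ N)).mkQ v) ≠ 0 := by
    intro h
    exact hv ((Submodule.Quotient.mk_eq_zero _).1 h)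
  obtain ⟨f, hf⟩ : ∃ f : Module.Dual (S ⧸ m) ((R ⧸ N) ⧸ (m • ⊤ : Submodule S (R ⧸ N))),
      f ((m • ⊤ : Submodule S (R ⧸ N)).mkQ v) ≠ 0 := by
    by_contra hc
    push Not at hc
    exact hv' ((Module.forall_dual_apply_eq_zero_iff (S ⧸ m) _).1 hc)
  obtain ⟨r, rfl⟩ := N.mkQ_surjective v
  refine ⟨m, hm, (f.restrictScalars S).comp
    ((m • ⊤ : Submodule S (R ⧸ N)).mkQ.comp N.mkQ), ?_, r, hf⟩
  intro r hr
  have h5 : N.mkQ r = 0 := (Submodule.Quotient.mk_eq_zero _).2 hr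
  rw [LinearMap.comp_apply, LinearMap.comp_apply, h5, map_zero, map_zero]

/-- Change of the coordinates of a Weierstrass curve. -/
theorem change {K R1 : Type} [Field K] [CommRing R1] [Algebra K R1] (x1 y1 X Y : R1)
    (α β γ δ ε : K) (hα : α ≠ 0) (hγ : γ ≠ 0)
    (hX : X = algebraMap K R1 α * x1 + algebraMap K R1 β)
    (hY : Y = algebraMap K R1 γ * y1 + algebraMap K R1 δ * x1 + algebraMap K R1 ε)
    (p q : Polynomial K) : ∃ p' q' : Polynomial K,
      Polynomial.aeval x1 p + Polynomial.aeval x1 q * y1 =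
        Polynomial.aeval X p' + Polynomial.aeval X q' * Y := by
  obtain ⟨l, hl⟩ : ∃ l : Polynomial K, Polynomial.aeval X l = x1 := by
    refine ⟨Polynomial.C α⁻¹ * (Polynomial.X - Polynomial.C β), ?_⟩
    rw [map_mul, map_sub, Polynomial.aeval_C, Polynomial.aeval_X, Polynomial.aeval_C, hX,
      add_sub_cancel_right, ← mul_assoc, ← map_mul, inv_mul_cancel₀ hα, map_one, one_mul]
  obtain ⟨w, hw⟩ : ∃ w : Polynomial K, y1 = algebraMap K R1 γ⁻¹ * Y - Polynomial.aeval X w := by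
    refine ⟨Polynomial.C γ⁻¹ * (Polynomial.C δ * l + Polynomial.C ε), ?_⟩
    rw [map_mul, map_add, map_mul, Polynomial.aeval_C, Polynomial.aeval_C, Polynomial.aeval_C,
      hl, hY]
    have h3 : algebraMap K R1 γ⁻¹ * algebraMap K R1 γ = 1 := by
      rw [← map_mul, inv_mul_cancel₀ hγ, map_one]
    linear_combination (-y1) * h3
  refine ⟨p.comp l - q.comp l * w, Polynomial.C γ⁻¹ * q.comp l, ?_⟩
  rw [map_sub, map_mul, map_mul, Polynomial.aeval_comp, Polynomial.aeval_comp, hl,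
    Polynomial.aeval_C]
  linear_combination (Polynomial.aeval x1 q) * hw

/-- The algebraic part: a functional which vanishes on `1` and `y` is zero. -/
theorem main {A R K R1 : Type} [CommRing A] [CommRing R] [Field K] [CommRing R1] [Algebra K R1]
    (f : A →+* R) (s : A →+* K) (x y : R) (ψ : R →+* R1)
    (hT : letI := s.toAlgebra
      letI := f.toAlgebra
      ∃ Θ : K ⊗[A] R →+* R1, Function.Injective Θ ∧
        ∀ b r, Θ (b ⊗ₜ r) = algebraMap K R1 b * ψ r)
    (r : R) (p q : Polynomial K)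
    (hr : ψ r = Polynomial.aeval (ψ x) p + Polynomial.aeval (ψ x) q * ψ y)
    (l : R →+ K) (hl : ∀ a r, l (f a * r) = s a * l r) (h1 : ∀ i : ℕ, l (x ^ i) = 0)
    (h2 : ∀ i : ℕ, l (x ^ i * y) = 0) : l r = 0 := by
  let _ := s.toAlgebra
  let _ := f.toAlgebra
  obtain ⟨Θ, hΘ, hv⟩ := hT
  let L : K ⊗[A] R →+ K := TensorProduct.liftAddHom
    ((AddMonoidHom.mul : K →+ K →+ K).compl₂ l) (by
      intro a b r
      show (a • b) * l r = b * l (a • r)
      have h3 : l (a • r) = s a * l r := hl a r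
      rw [h3]
      show (s a * b) * l r = b * (s a * l r)
      ring)
  have hL : ∀ b r, L (b ⊗ₜ r) = b * l r := fun b r => rfl
  have key : (1 : K) ⊗ₜ[A] r = ∑ i ∈ Finset.range (p.natDegree + 1), (p.coeff i) ⊗ₜ[A] (x ^ i) +
      ∑ i ∈ Finset.range (q.natDegree + 1), (q.coeff i) ⊗ₜ[A] (x ^ i * y) := by
    apply hΘ
    rw [hv, map_one, one_mul, hr, map_add, map_sum, map_sum,
      Polynomial.aeval_eq_sum_range, Polynomial.aeval_eq_sum_range, Finset.sum_mul]
    congr 1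
    · refine Finset.sum_congr rfl fun i _ => ?_
      rw [hv, map_pow, Algebra.smul_def]
    · refine Finset.sum_congr rfl fun i _ => ?_
      rw [hv, map_mul, map_pow, Algebra.smul_def, mul_assoc]
  have h4 := congrArg L key
  rw [hL, one_mul, map_add, map_sum, map_sum] at h4
  rw [h4, Finset.sum_eq_zero, Finset.sum_eq_zero, add_zero]
  · intro i _
    rw [hL, h2, mul_zero]
  · intro i _
    rw [hL, h1, mul_zero]

/-- A functional with values in `K` which vanishes on `1` and `y` is zero. -/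
theorem core {A : Type} [CommRing A] {C : Fam 1 A} (L : LC C) (x y : Γ(C.X, L.U))
    (hU : IsAffineOpen L.U) {K : Type} [Field K] (s : A →+* K) (G : GF L x y s)
    (r0 : Γ(C.X, L.U)) (l : Γ(C.X, L.U) →+ K)
    (hl : ∀ a r, l (coef C.π L.U a * r) = s a * l r) (h1 : ∀ i : ℕ, l (x ^ i) = 0)
    (h2 : ∀ i : ℕ, l (x ^ i * y) = 0) : l r0 = 0 := by
  have hW : (WX.in1 K G.a G.b).opensRange = G.e.f ⁻¹ᵁ L.U := G.rng.symm
  have hle : ⊤ ≤ (WX.in1 K G.a G.b) ⁻¹ᵁ (G.e.f ⁻¹ᵁ L.U) := G.le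
  have hbij := gm_bij (WX.in1 K G.a G.b) (G.e.f ⁻¹ᵁ L.U) hle hW
  obtain ⟨T, hT⟩ := tp_affine G.e hU
  let ψ : Γ(C.X, L.U) →+* A1 K G.a G.b := gm (WX.in1 K G.a G.b ≫ G.e.f) L.U G.le
  have hψ : ∀ v, gm (WX.in1 K G.a G.b) (G.e.f ⁻¹ᵁ L.U) hle
      ((G.e.f.appLE L.U (G.e.f ⁻¹ᵁ L.U) le_rfl).hom v) = ψ v := by
    intro v
    have h3 := gm_nat G.e.f (WX.in1 K G.a G.b ≫ G.e.f) (WX.in1 K G.a G.b) (RingHom.id _)
      (by
        have h4 : spMap (RingHom.id (A1 K G.a G.b)) = 𝟙 _ := Spec.map_id _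
        rw [h4, Category.id_comp]
        rfl) L.U (G.e.f ⁻¹ᵁ L.U) G.le hle le_rfl v
    exact h3
  have hco : ∀ b : K, gm (WX.in1 K G.a G.b) (G.e.f ⁻¹ᵁ L.U) hle
      (coef (Wei (WZ G.a G.b)).π (G.e.f ⁻¹ᵁ L.U) b) = algebraMap K _ b :=
    gm_coef (WX.in1 K G.a G.b) (Wei (WZ G.a G.b)).π (algebraMap K _) (WX.in1_pr K G.a G.b) _ hle
  obtain ⟨⟨p, q⟩, hpq, -⟩ := t_WRG K G.a G.b |>.1 (ψ r0)
  obtain ⟨p', q', hpq'⟩ := FSP.change (x1 K G.a G.b) (y1 K G.a G.b) (ψ x) (ψ y) G.α G.β G.γ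
    G.δ G.ε G.hα G.hγ G.hx G.hy p q
  refine FSP.main (coef C.π L.U) s x y ψ
    ⟨(gm (WX.in1 K G.a G.b) (G.e.f ⁻¹ᵁ L.U) hle).comp T.toRingHom,
      hbij.1.comp T.injective, fun b r => ?_⟩ r0 p' q' (hpq.trans hpq') l hl h1 h2
  exact ((congrArg (gm (WX.in1 K G.a G.b) (G.e.f ⁻¹ᵁ L.U) hle) (hT b r)).trans
    (map_mul (gm (WX.in1 K G.a G.b) (G.e.f ⁻¹ᵁ L.U) hle) _ _)).trans
      (congrArg₂ (· * ·) (hco b) (hψ r))

end FSP

theorem t_FSP : Stmt_FSP := by
  intro A _ C L x y hG hU hfin r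
  let φ : Polynomial A →+* Γ(C.X, L.U) := Polynomial.eval₂RingHom (coef C.π L.U) x
  let _ : Algebra (Polynomial A) Γ(C.X, L.U) := φ.toAlgebra
  have hmf : Module.Finite (Polynomial A) Γ(C.X, L.U) := hfin
  have hsm : ∀ (p : Polynomial A) (r : Γ(C.X, L.U)), p • r = φ p * r := fun p r => rfl
  have htop : Submodule.span (Polynomial A) {(1 : Γ(C.X, L.U)), y} = ⊤ := by
    by_contra hne
    obtain ⟨m, hm, l, hl, r0, hr0⟩ := FSP.exists_functional _ hne
    let _ := Ideal.Quotient.field m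
    let ι : (Polynomial A ⧸ m) →+* AlgebraicClosure (Polynomial A ⧸ m) := algebraMap _ _
    obtain ⟨G⟩ := hG (AlgebraicClosure (Polynomial A ⧸ m))
      (ι.comp ((Ideal.Quotient.mk m).comp Polynomial.C))
    have hlsm : ∀ (p : Polynomial A) (r : Γ(C.X, L.U)),
        l (φ p * r) = Ideal.Quotient.mk m p * l r := by
      intro p r
      rw [← hsm, map_smul]
      rfl
    have hX : ∀ i : ℕ, x ^ i = φ (Polynomial.X ^ i) := by
      intro i
      rw [map_pow]
      congr 1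
      exact (Polynomial.eval₂_X _ _).symm
    have h8 : ι (l r0) = 0 := by
      refine FSP.core L x y hU _ G r0 (ι.toAddMonoidHom.comp l.toAddMonoidHom) ?_ ?_ ?_
      · intro a r
        show ι (l (coef C.π L.U a * r)) = ι (Ideal.Quotient.mk m (Polynomial.C a)) * ι (l r)
        have h7 : coef C.π L.U a = φ (Polynomial.C a) := (Polynomial.eval₂_C _ _).symm
        rw [h7, hlsm, map_mul ι]
      · intro i
        show ι (l (x ^ i)) = 0
        rw [hX, ← mul_one (φ _), hlsm, hl 1 (Submodule.subset_span (Set.mem_insert _ _)),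
          mul_zero, map_zero]
      · intro i
        show ι (l (x ^ i * y)) = 0
        rw [hX, hlsm, hl y (Submodule.subset_span (Set.mem_insert_of_mem _ rfl)), mul_zero,
          map_zero]
    exact hr0 (ι.injective (h8.trans (map_zero ι).symm))
  have h9 : r ∈ Submodule.span (Polynomial A) {(1 : Γ(C.X, L.U)), y} := by rw [htop]; trivial
  obtain ⟨p, q, hpq⟩ := Submodule.mem_span_pair.1 h9
  refine ⟨p, q, ?_⟩
  rw [← hpq, hsm, hsm, mul_one]
  rfl

end Pool.Agent.MG.WL
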