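import Pool.Agent.MG.WL.FIN.FIN
import Pool.Agent.MG.WL.FIN.FAL
import Pool.Agent.MG.WL.FIN.FCH
import Pool.Agent.MG.WL.FIN.FCP
import Pool.Agent.MG.WL.FIN.FGF
import Pool.Agent.MG.WL.FIN.FLK
import Pool.Agent.MG.WL.FIN.FLW
import Pool.Agent.MG.WL.FIN.FPR
import Pool.Agent.MG.WL.FIN.FQF
import Pool.Agent.MG.WL.FIN.FSP
import Pool.Agent.MG.WL.CL.T
import Pool.Agent.MG.WL.LCB

/-!
# Block FIN: the Weierstrass form of a stable curve with functions with poles of order 2 and 3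
-/

namespace Pool.Agent.MG.WL

theorem fin : Stmt_FIN :=
  t_FIN t_FLK (t_FGF CL.t_CL t_LCB (t_FCP t_FLK) t_FLW) t_FPR t_FQF t_FSP t_FAL (t_FCH t_FLK)

end Pool.Agent.MG.WL
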