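import Pool.Agent.MG.WL.StmtsW
import Pool.Agent.MG.WL.Tools

/-!
# Statements for the block `FIN`

A stable curve with functions `x`, `y` with poles of order two and three is a Weierstrass curve.
-/

open CategoryTheory CategoryTheory.Limits AlgebraicGeometry TensorProduct

namespace Pool.Agent.MG.WL

open Pool.Agent.MG.W Pool.Agent.MG.One Pool.Agent.MG.GLU

/-! ## Local coordinates -/

/-- FLK: on every open subset of `L.V` the coordinate is a nonzerodivisor and it generates the ideal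
of the section. -/
def Stmt_FLK : Prop :=
  ∀ {A : Type} [CommRing A] {C : Fam 1 A} (L : LC C) (O : C.X.Opens) (hO : O ≤ L.V),
    (∀ s : Γ(C.X, O), rs C.X hO L.t * s = 0 → s = 0) ∧
    (∀ s : Γ(C.X, O), rs C.X (inf_le_right : L.U ⊓ O ≤ O) s = 0 → s = 0) ∧
    ∀ (h : ⊤ ≤ (C.σ 0) ⁻¹ᵁ O) (r : Γ(C.X, O)), gm (C.σ 0) O h r = 0 →
      ∃ s, r = rs C.X hO L.t * s

/-- FCP: two coordinates define the same poles. -/
def Stmt_FCP : Prop :=
  ∀ {A : Type} [CommRing A] {C : Fam 1 A} (L L' : LC C) (hU : L'.U ≤ L.U), ∃ e : A, IsUnit e ∧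
    ∀ (n : ℕ) (c : A) (X : Γ(C.X, L.U)), L.Pole n c X → L'.Pole n (e ^ n * c) (rs C.X hU X)

/-- FLW: the coordinate `z` of a Weierstrass curve over a field. -/
def Stmt_FLW : Prop :=
  ∀ {k : Type} [Field k] (a b : k), ∃ (L : LC (Wei (WZ a b)))
    (h : ⊤ ≤ (WX.in1 k a b) ⁻¹ᵁ L.U), L.U = (WX.in1 k a b).opensRange ∧
    ∀ (n : ℕ) (c : k) (X : Γ((Wei (WZ a b)).X, L.U)), L.Pole n c X →
      ∃ v2 : A2 k a b, (zu k a b).val ^ n * g1 k a b (gm (WX.in1 k a b) L.U h X) = g2 k a b v2 ∧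
        inf2 k a b v2 = c

/-! ## Geometric fibres -/

/-- The geometric fibre over `s : A → k` with the functions `x = α x₁ + β`,
`y = γ y₁ + δ x₁ + ε`. -/
structure GF {A : Type} [CommRing A] {C : Fam 1 A} (L : LC C) (x y : Γ(C.X, L.U)) {k : Type}
    [Field k] (s : A →+* k) where
  /-- coefficient -/
  a : k
  /-- coefficient -/
  b : k
  ab : a ≠ 0 ∨ b ≠ 0
  /-- the geometric fibre -/
  e : Arrow s (Wei (WZ a b)) C
  rng : e.f ⁻¹ᵁ L.U = (WX.in1 k a b).opensRange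
  le : ⊤ ≤ (WX.in1 k a b ≫ e.f) ⁻¹ᵁ L.U
  /-- coefficient -/
  α : k
  /-- coefficient -/
  β : k
  /-- coefficient -/
  γ : k
  /-- coefficient -/
  δ : k
  /-- coefficient -/
  ε : k
  hα : α ≠ 0
  hγ : γ ≠ 0
  hx : gm (WX.in1 k a b ≫ e.f) L.U le x = algebraMap k _ α * x1 k a b + algebraMap k _ β
  hy : gm (WX.in1 k a b ≫ e.f) L.U le y = algebraMap k _ γ * y1 k a b +
    algebraMap k _ δ * x1 k a b + algebraMap k _ ε

/-- All geometric fibres are Weierstrass curves. -/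
def AllGF {A : Type} [CommRing A] {C : Fam 1 A} (L : LC C) (x y : Γ(C.X, L.U)) : Prop :=
  ∀ (k : Type) [Field k] [IsAlgClosed k] (s : A →+* k), Nonempty (GF L x y s)

/-- FGF: the geometric fibres. -/
def Stmt_FGF : Prop :=
  ∀ (A : Type) [CommRing A] [Algebra ℂ A] (C : Fam 1 A), IsStable 1 C → ∀ (L : LC C)
    (x y : Γ(C.X, L.U)), L.Pole 2 1 x → L.Pole 3 1 y → AllGF L x y

/-! ## The morphism to the affine line -/

/-- The morphism `x : U → Spec A[X]`. -/
noncomputable def xm {A : Type} [CommRing A] {C : Fam 1 A} (L : LC C) (x : Γ(C.X, L.U)) :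
    (L.U : Scheme.{0}) ⟶ Sp (Polynomial A) :=
  L.U.toSpecΓ ≫ spMap (Polynomial.eval₂RingHom (coef C.π L.U) x)

/-- FPR: `x` is proper if it has a pole. -/
def Stmt_FPR : Prop :=
  ∀ {A : Type} [CommRing A] {C : Fam 1 A}, IsProper C.π → ∀ (L : LC C) (n : ℕ)
    (x : Γ(C.X, L.U)), L.Pole (n + 1) 1 x → IsProper (xm L x)

/-- FQF: `x` is quasi-finite. -/
def Stmt_FQF : Prop :=
  ∀ {A : Type} [CommRing A] {C : Fam 1 A}, IsProper C.π → ∀ (L : LC C) (x y : Γ(C.X, L.U)),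
    AllGF L x y → LocallyQuasiFinite (xm L x)

/-- FSP: the functions on `U` are generated by `1` and `y` over `A[x]`. -/
def Stmt_FSP : Prop :=
  ∀ {A : Type} [CommRing A] {C : Fam 1 A} (L : LC C) (x y : Γ(C.X, L.U)), AllGF L x y →
    IsAffineOpen L.U → (Polynomial.eval₂RingHom (coef C.π L.U) x).Finite →
    ∀ r : Γ(C.X, L.U), ∃ p q : Polynomial A,
      r = p.eval₂ (coef C.π L.U) x + q.eval₂ (coef C.π L.U) x * y

/-! ## The equation -/

/-- FAL: the Weierstrass equation from the orders of the poles: `R1` = functions away from the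
section, `R2` = functions near the section, `z` = the coordinate, `ev` = the value at the section. -/
def Stmt_FAL : Prop :=
  ∀ {A R1 R2 R12 : Type} [CommRing A] [CommRing R1] [CommRing R2] [CommRing R12] (c1 : A →+* R1)
    (c2 : A →+* R2) (j1 : R1 →+* R12) (j2 : R2 →+* R12) (_ : ∀ a, j1 (c1 a) = j2 (c2 a))
    (_ : Function.Injective j2) (z : R2) (_ : IsUnit (j2 z)) (ev : R2 →+* A)
    (_ : ∀ a, ev (c2 a) = a) (_ : ∀ r, ev r = 0 ↔ ∃ s, r = z * s) (_ : IsUnit (6 : A)) (x y : R1)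
    (_ : ∃ r, j2 z ^ 2 * j1 x = j2 (1 + z * r)) (_ : ∃ r, j2 z ^ 3 * j1 y = j2 (1 + z * r))
    (_ : ∀ r : R1, ∃ p q : Polynomial A, r = p.eval₂ c1 x + q.eval₂ c1 x * y),
    ∃ (a b β δ ε : A) (e : (y + c1 δ * x + c1 ε) ^ 2 =
      (x + c1 β) ^ 3 + c1 a * (x + c1 β) + c1 b),
      Function.Bijective (lift1 c1 (x + c1 β) (y + c1 δ * x + c1 ε) e)

/-! ## The chart at infinity -/

/-- FCH: the curve is a Weierstrass curve if the functions on `U` are those of the affine chart of a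
Weierstrass curve. -/
def Stmt_FCH : Prop :=
  ∀ {A : Type} [CommRing A] {C : Fam 1 A}, IsProper C.π → ∀ L : LC C, IsAffineOpen L.U →
    ∀ x y : Γ(C.X, L.U), L.Pole 2 1 x → L.Pole 3 1 y → ∀ (a b : A)
    (e : y ^ 2 = x ^ 3 + coef C.π L.U a * x + coef C.π L.U b),
    Function.Bijective (lift1 (coef C.π L.U) x y e) →
      Nonempty (Arrow (RingHom.id A) (Wei (WZ a b)) C)

end Pool.Agent.MG.WL
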